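import Pool.Agent.U125.NO.Use

/-!
# Normal orbits of vectors
-/

set_option autoImplicit false
set_option linter.unusedSectionVars false
set_option linter.unusedVariables false

namespace Pool.Agent.U125.NO

open Finset Filter Topology
open Pool.Agent.N24.RW (ProNull Walk orb)

/-- The sequence `c` of integral vectors is the orbit of a vector `v` under a finite family `S` of affine maps
`x ↦ A_j x + b_j` with integral coefficients, which is wide at `v`, along a sequence `w` of indices which is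
normal for some positive weights: `c_0 = v`, and `c_(n + 1)` is the image of `c_n` under the map number `w_n`. -/
def NormalOrbit {ι : Type} [Fintype ι] [DecidableEq ι] (c : ℕ → ι → ℤ) : Prop :=
  ∃ (α : Type) (_ : Fintype α) (S : Maps ι α) (v : ι → ℤ) (p : α → ℝ) (w : ℕ → α),
    Wide S v ∧ (∀ j, 0 < p j) ∧ Normal p w ∧ ∀ n, c n = path S v w n

theorem NormalOrbit.avoids {ι : Type} [Fintype ι] [DecidableEq ι] {c : ℕ → ι → ℤ} (h : NormalOrbit c) :
    Avoids c := by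
  obtain ⟨α, _, S, v, p, w, hS, hp, hw, hc⟩ := h
  have h1 : c = path S v w := funext hc
  rw [h1]
  exact avoids_path hS hp hw

/-- the upper density of the visits to a set of vectors is at most its density modulo `q`, up to a constant -/
theorem NormalOrbit.upper {ι : Type} [Fintype ι] [DecidableEq ι] {c : ℕ → ι → ℤ} (h : NormalOrbit c) :
    ∃ q₀ : ℕ, 0 < q₀ ∧ ∃ κ : ℝ, 0 < κ ∧ ∀ q : ℕ, 0 < q → q.Coprime q₀ → ∀ (P : (ι → ℤ) → Prop) (ε : ℝ),
      0 ≤ ε → ((((fun (c : ι → ℤ) (i : ι) => (c i : ZMod q)) '' {x | P x}).ncard : ℕ) : ℝ) ≤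
        ε * (q : ℝ) ^ Fintype.card ι → ∀ δ : ℝ, 0 < δ →
          ∀ᶠ N : ℕ in atTop, (({n : ℕ | n < N ∧ P (c n)}.ncard : ℕ) : ℝ) / (N : ℝ) ≤ ε / κ + δ := by
  obtain ⟨α, _, S, v, p, w, ⟨q₀, hq₀, κ, hκ, hW⟩, hp, hw, hc⟩ := h
  have h1 : c = path S v w := funext hc
  refine ⟨q₀, hq₀, κ, hκ, fun q hq hqc P ε hε hP δ hδ => ?_⟩
  obtain ⟨hi, hY⟩ := hW q hq hqc
  rw [h1]
  exact one_modulus hq hκ hi hY hp hw {x | P x} hε hP hδ

theorem fin_below (N : ℕ) (A : Set ℕ) : {t : ℕ | t < N ∧ t ∈ A}.Finite :=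
  (Set.finite_Iio N).subset fun _ ht => ht.1

/-- density zero -/
def Nul (E : Set ℕ) : Prop :=
  Tendsto (fun N : ℕ => (({t : ℕ | t < N ∧ t ∈ E}.ncard : ℕ) : ℝ) / (N : ℝ)) atTop (𝓝 0)

theorem Nul.union {A B : Set ℕ} (hA : Nul A) (hB : Nul B) : Nul (A ∪ B) := by
  have h := hA.add hB
  rw [add_zero] at h
  refine squeeze_zero (fun N => by positivity) (fun N => ?_) h
  rw [← add_div, ← Nat.cast_add]
  refine div_le_div_of_nonneg_right (Nat.cast_le.2 ?_) (Nat.cast_nonneg N)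
  refine le_trans (Set.ncard_le_ncard (t := {t : ℕ | t < N ∧ t ∈ A} ∪ {t : ℕ | t < N ∧ t ∈ B}) ?_
    ((fin_below N A).union (fin_below N B))) (Set.ncard_union_le _ _)
  rintro t ⟨h1, h2 | h2⟩
  · exact Or.inl ⟨h1, h2⟩
  · exact Or.inr ⟨h1, h2⟩

theorem nul_empty : Nul ∅ := by
  have h : (fun N : ℕ => (({t : ℕ | t < N ∧ t ∈ (∅ : Set ℕ)}.ncard : ℕ) : ℝ) / (N : ℝ)) =
      fun _ => (0 : ℝ) := by
    funext N
    have : {t : ℕ | t < N ∧ t ∈ (∅ : Set ℕ)} = ∅ := by
      ext t; simp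
    rw [this, Set.ncard_empty, Nat.cast_zero, zero_div]
  unfold Nul
  rw [h]
  exact tendsto_const_nhds

/-- a diagonal argument for increasing sequences of null sets -/
theorem nul_diag {A : ℕ → Set ℕ} (hA : Monotone A) (h : ∀ D, Nul (A D)) :
    ∃ E : Set ℕ, Nul E ∧ ∀ D, (A D \ E).Finite := by
  have hT : ∀ D : ℕ, ∃ T : ℕ, ∀ N, T ≤ N →
      (({t : ℕ | t < N ∧ t ∈ A D}.ncard : ℕ) : ℝ) / (N : ℝ) ≤ 1 / ((D : ℝ) + 1) := by
    intro D
    have h1 : ∀ᶠ N : ℕ in atTop,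
        (({t : ℕ | t < N ∧ t ∈ A D}.ncard : ℕ) : ℝ) / (N : ℝ) < 1 / ((D : ℝ) + 1) :=
      (h D).eventually (gt_mem_nhds (by positivity))
    obtain ⟨T, hT⟩ := eventually_atTop.1 h1
    exact ⟨T, fun N hN => (hT N hN).le⟩
  choose T hT using hT
  refine ⟨{t | ∃ D, T D ≤ t ∧ D ≤ t ∧ t ∈ A D}, ?_, fun D => ?_⟩
  · unfold Nul
    rw [Metric.tendsto_atTop]
    intro ε hε
    obtain ⟨D₀, hD₀⟩ := exists_nat_one_div_lt hε
    refine ⟨max (T D₀) (D₀ + 1), fun N hN => ?_⟩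
    have hN1 : T D₀ ≤ N := le_trans (le_max_left _ _) hN
    have hN2 : D₀ + 1 ≤ N := le_trans (le_max_right _ _) hN
    let S : Finset ℕ := (Finset.range N).filter fun D => T D ≤ N
    have hS0 : D₀ ∈ S := Finset.mem_filter.2 ⟨Finset.mem_range.2 (by omega), hN1⟩
    have hS : S.Nonempty := ⟨D₀, hS0⟩
    have hm := Finset.mem_filter.1 (S.max'_mem hS)
    have hle : D₀ ≤ S.max' hS := Finset.le_max' _ _ hS0
    have h2 := hT _ N hm.2
    have h3 : (({t : ℕ | t < N ∧ t ∈ {t | ∃ D, T D ≤ t ∧ D ≤ t ∧ t ∈ A D}}.ncard : ℕ) : ℝ) / (N : ℝ) ≤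
        (({t : ℕ | t < N ∧ t ∈ A (S.max' hS)}.ncard : ℕ) : ℝ) / (N : ℝ) := by
      refine div_le_div_of_nonneg_right (Nat.cast_le.2 (Set.ncard_le_ncard ?_ (fin_below N _)))
        (Nat.cast_nonneg N)
      rintro t ⟨ht, D, hD1, hD2, hD3⟩
      refine ⟨ht, hA (Finset.le_max' _ _ (Finset.mem_filter.2 ⟨Finset.mem_range.2 ?_, ?_⟩)) hD3⟩
      · exact lt_of_le_of_lt hD2 ht
      · exact le_trans hD1 ht.le
    have h4 : (1 : ℝ) / (((S.max' hS : ℕ) : ℝ) + 1) ≤ 1 / ((D₀ : ℝ) + 1) := by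
      apply one_div_le_one_div_of_le (by positivity)
      have : (D₀ : ℝ) ≤ ((S.max' hS : ℕ) : ℝ) := Nat.cast_le.2 hle
      linarith
    rw [Real.dist_eq, sub_zero, abs_of_nonneg (by positivity)]
    linarith
  · refine (Set.finite_Iio (max (T D) D)).subset ?_
    rintro t ⟨ht1, ht2⟩
    rw [Set.mem_Iio]
    by_contra hlt
    rw [not_lt] at hlt
    exact ht2 ⟨D, le_trans (le_max_left _ _) hlt, le_trans (le_max_right _ _) hlt, ht1⟩

/-- a diagonal argument for countable families of null sets -/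
theorem nul_countable {K : Type} [Countable K] (A : K → Set ℕ) (h : ∀ a, Nul (A a)) :
    ∃ E : Set ℕ, Nul E ∧ ∀ a, (A a \ E).Finite := by
  obtain ⟨f, hf⟩ := exists_injective_nat K
  let B : ℕ → Set ℕ := fun j => ⋃ a ∈ {a : K | f a ≤ j}, A a
  have hfin : ∀ j, {a : K | f a ≤ j}.Finite := fun j =>
    Set.Finite.preimage (hf.injOn) (Set.finite_Iic j)
  have hB : ∀ j, Nul (B j) := by
    intro j
    have key : ∀ s : Set K, s.Finite → Nul (⋃ a ∈ s, A a) := by
      intro s hs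
      induction s, hs using Set.Finite.induction_on with
      | empty => simpa using nul_empty
      | insert _ _ ih =>
        rw [Set.biUnion_insert]
        exact (h _).union ih
    exact key _ (hfin j)
  have hmono : Monotone B := by
    intro i j hij
    refine Set.biUnion_subset_biUnion_left ?_
    intro a ha
    exact le_trans ha hij
  obtain ⟨E, hE1, hE2⟩ := nul_diag hmono hB
  refine ⟨E, hE1, fun a => (hE2 (f a)).subset ?_⟩
  rintro t ⟨ht1, ht2⟩
  exact ⟨Set.mem_biUnion (show a ∈ {b : K | f b ≤ f a} from le_refl (f a)) ht1, ht2⟩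

/-- one set of times of density zero for countably many pronull sets -/
theorem Avoids.diag {ι : Type} [Fintype ι] {c : ℕ → ι → ℤ} (h : Avoids c) {K : Type} [Countable K]
    (P : K → (ι → ℤ) → Prop) (hP : ∀ a, ProNull {x | P a x}) :
    ∃ E : Set ℕ, Tendsto (fun N : ℕ => (({t : ℕ | t < N ∧ t ∈ E}.ncard : ℕ) : ℝ) / (N : ℝ)) atTop (𝓝 0) ∧
      ∀ a, {n : ℕ | n ∉ E ∧ P a (c n)}.Finite := by
  obtain ⟨E, hE1, hE2⟩ := nul_countable (fun a : K => {n : ℕ | P a (c n)}) (fun a => h (P a) (hP a))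
  refine ⟨E, hE1, fun a => (hE2 a).subset ?_⟩
  rintro n ⟨hn1, hn2⟩
  exact ⟨hn2, hn1⟩

/-- Normal orbits: (1) the vectors `(⌊b ^ n x_i⌋)_i`, `n = 0, 1, …`, where the real vector `x` is normal to
the base `b ≥ 2`; (2) the orbits of all vectors `v ≠ 0` along all normal words in matrices of determinant
one which generate the special linear group modulo all `q` prime to some `q₀`; (3) the orbits of all vectors
under the maps `x ↦ β x + d_j`, `β ≠ 0`, along normal words, if the differences `d_j - d_(j₀)` generate a group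
which contains `M ℤ^ι`, `M > 0`. -/
def Examples (ι : Type) [Fintype ι] [DecidableEq ι] : Prop :=
  (∀ (b : ℕ) [NeZero b] (x : ι → ℝ), 2 ≤ b → NormalVector b x →
    NormalOrbit fun (n : ℕ) (i : ι) => ⌊(b : ℝ) ^ n * x i⌋) ∧
  (2 ≤ Fintype.card ι → ∀ (W : Walk ι) (v : ι → ℤ) (p : Fin (W.m + 1) → ℝ) (w : ℕ → Fin (W.m + 1)),
    v ≠ 0 → (∀ j, 0 < p j) → Normal p w → NormalOrbit (orb W v w)) ∧
  ∀ (α : Type) [Fintype α] (β : ℤ) (d : α → ι → ℤ) (j₀ : α) (M : ℕ) (v : ι → ℤ) (p : α → ℝ) (w : ℕ → α),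
    β ≠ 0 → 0 < M → (∀ i, Pi.single i (M : ℤ) ∈ AddSubgroup.closure (Set.range fun j => d j - d j₀)) →
      (∀ j, 0 < p j) → Normal p w → NormalOrbit (path (digits β d) v w)

theorem examples (ι : Type) [Fintype ι] [DecidableEq ι] : Examples ι := by
  refine ⟨fun b _ x hb hx => ?_, fun hι W v p w hv hp hw => ?_,
    fun α _ β d j₀ M v p w hβ hM hd hp hw => ?_⟩
  · have hb0 : (0 : ℝ) < b := by
      have : 0 < b := by omega
      exact_mod_cast this
    exact ⟨ι → Fin b, inferInstance, allDigits ι b, fun i => ⌊x i⌋, _, digit b x, wide_allDigits hb _,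
      fun _ => by positivity, hx, fun n => (path_digit b x n).symm⟩
  · exact ⟨Fin (W.m + 1), inferInstance, ofWalk W, v, p, w, wide_walk hι W hv, hp, hw,
      fun n => (path_ofWalk W v w n).symm⟩
  · exact ⟨α, inferInstance, digits β d, v, p, w, wide_digits hβ j₀ hM hd v, hp, hw, fun _ => rfl⟩

end Pool.Agent.U125.NO
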