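import Pool.Agent.U125.NO.Seq
import Pool.Agent.N265.ORB.Mult

/-!
# Normal orbits: a prime factor of one coordinate which does not divide the value of a polynomial
-/

set_option autoImplicit false
set_option linter.unusedSectionVars false
set_option linter.unusedVariables false

namespace Pool.Agent.U125.NO

open Finset Filter MvPolynomial
open Pool.Agent.N24.RW (ProNull)
open Pool.Agent.N265.ORB (Bad OmR bad_small eval_red mp)

theorem mult_normal {J : Type} [Fintype J] [DecidableEq J] {c : ℕ → Option J → ℤ} (hc : NormalOrbit c)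
    {R : MvPolynomial J ℤ} (hR : R ≠ 0) (T₀ : ℕ) (ε : ℝ) (hε : 0 < ε) :
    ∃ T' : ℕ, ∀ᶠ N : ℕ in atTop,
      ({n : ℕ | n < N ∧ ¬ (c n none ≠ 0 ∧ ∃ p : ℕ, p.Prime ∧ T₀ < p ∧ p ≤ T' ∧
        (p : ℤ) ∣ c n none ∧ ¬ (p : ℤ) ∣ eval (fun j => c n (some j)) R)}.ncard : ℝ) ≤ ε * N := by
  classical
  obtain ⟨q₀, hq₀, κ, hκ, h⟩ := hc.upper
  obtain ⟨P, hP, hPc⟩ := bad_small hR T₀ _ hq₀ (κ * (ε / 4)) (by positivity)
  have hq : 0 < ∏ p ∈ P, p := Finset.prod_pos fun p hp => (hP p hp).1.pos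
  have hqc : (∏ p ∈ P, p).Coprime q₀ := Nat.Coprime.prod_left fun p hp => (hP p hp).2.2
  have g3 := h _ hq hqc (fun x => x ∈ Bad R P) (κ * (ε / 4)) (by positivity) hPc (ε / 4) (by positivity)
  have h2 := hc.avoids (fun x => eval x (X none : MvPolynomial (Option J) ℤ) = 0)
    ((Pool.Agent.N24.RW.clo (Option J)).2.2.2.1 _ (X_ne_zero _))
  have g4 := (tendsto_order.1 h2).2 (ε / 4) (by linarith)
  refine ⟨P.sup id, ?_⟩
  have h9 : κ * (ε / 4) / κ = ε / 4 := by field_simp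
  rw [h9] at g3
  filter_upwards [g3, g4, eventually_gt_atTop 0] with N k3 k4 hN
  have hN' : (0 : ℝ) < N := by exact_mod_cast hN
  rw [div_le_iff₀ hN'] at k3
  rw [div_lt_iff₀ hN'] at k4
  have hsub : {n : ℕ | n < N ∧ ¬ (c n none ≠ 0 ∧ ∃ p : ℕ, p.Prime ∧ T₀ < p ∧ p ≤ P.sup id ∧
        (p : ℤ) ∣ c n none ∧ ¬ (p : ℤ) ∣ eval (fun j => c n (some j)) R)} ⊆
      {n : ℕ | n < N ∧ c n ∈ Bad R P} ∪
        {n : ℕ | n < N ∧ eval (c n) (X none : MvPolynomial (Option J) ℤ) = 0} := by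
    rintro n ⟨hn, hn'⟩
    by_cases h0 : c n none = 0
    · right
      refine ⟨hn, ?_⟩
      rw [eval_X, h0]
    · left
      refine ⟨hn, fun p hp hmem => hn' ⟨h0, p, (hP p hp).1, (hP p hp).2.1,
        Finset.le_sup (f := id) hp, ?_, ?_⟩⟩
      · have := hmem.1
        exact (ZMod.intCast_zmod_eq_zero_iff_dvd _ _).1 this
      · intro hdvd
        apply hmem.2
        have h3 := eval_red p R (fun j => c n (some j))
        show eval (fun j => ((c n (some j) : ℤ) : ZMod p)) (mp p R) = 0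
        rw [h3]
        exact (ZMod.intCast_zmod_eq_zero_iff_dvd _ _).2 hdvd
  have hf1 : {n : ℕ | n < N ∧ c n ∈ Bad R P}.Finite := (Set.finite_Iio N).subset fun n hn => hn.1
  have hf2 : {n : ℕ | n < N ∧ eval (c n) (X none : MvPolynomial (Option J) ℤ) = 0}.Finite :=
    (Set.finite_Iio N).subset fun n hn => hn.1
  have h5 := (Set.ncard_le_ncard hsub (hf1.union hf2)).trans (Set.ncard_union_le _ _)
  have h6 : ({n : ℕ | n < N ∧ ¬ (c n none ≠ 0 ∧ ∃ p : ℕ, p.Prime ∧ T₀ < p ∧ p ≤ P.sup id ∧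
        (p : ℤ) ∣ c n none ∧ ¬ (p : ℤ) ∣ eval (fun j => c n (some j)) R)}.ncard : ℝ) ≤
      ({n : ℕ | n < N ∧ c n ∈ Bad R P}.ncard : ℝ) +
      ({n : ℕ | n < N ∧ eval (c n) (X none : MvPolynomial (Option J) ℤ) = 0}.ncard : ℝ) := by
    exact_mod_cast h5
  have h7 : 0 ≤ ε * N := by positivity
  calc _ ≤ _ := h6
    _ ≤ (ε / 4 + ε / 4) * N + ε / 4 * N := add_le_add k3 k4.le
    _ ≤ ε * N := by nlinarith

end Pool.Agent.U125.NO
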