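import Pool.Agent.U125.NO.Seq
import Pool.Agent.N676.OR.Cnt
import Pool.Agent.N676.OR.Diag

/-!
# Twists by the values of linear forms at the vectors of a sequence which avoids pronull sets
-/

set_option autoImplicit false
set_option linter.unusedSectionVars false
set_option linter.unusedVariables false

namespace Pool.Agent.U125.NO

open Filter Topology
open Pool.Agent.N676.OR (DensityZero Big Hit orbit_principle)

/-- one set of times of density zero for all the data and all linear forms -/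
theorem twists {𝔇 : Type} [Countable 𝔇] (good : 𝔇 → ℤ → Prop)
    (h : ∀ D, ∃ PP : Set (Set ℕ), PP.Finite ∧ (∀ P ∈ PP, Big P) ∧
      ∀ a : ℤ, (∀ P ∈ PP, Hit P a) → good D a) {ι : Type} [Fintype ι] {c : ℕ → ι → ℤ} (hc : Avoids c) :
    ∃ E : Set ℕ, DensityZero E ∧ ∀ lam : ι → ℤ, lam ≠ 0 → ∀ D,
      {t : ℕ | t ∉ E ∧ ¬ good D (∑ i, lam i * c t i)}.Finite := by
  obtain ⟨E, hE1, hE2⟩ := hc.diag (K := {lam : ι → ℤ // lam ≠ 0} × 𝔇)
    (fun a x => ¬ good a.2 (∑ i, a.1.1 i * x i)) (fun a => (orbit_principle good h).1 ι a.1.1 a.1.2 a.2)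
  exact ⟨E, hE1, fun lam hlam D => hE2 (⟨lam, hlam⟩, D)⟩

end Pool.Agent.U125.NO
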