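import Pool.Agent.U125.NO.Dig

/-!
# Forms for the applications
-/

set_option autoImplicit false
set_option linter.unusedSectionVars false
set_option linter.unusedVariables false

namespace Pool.Agent.U125.NO

open Finset Filter Topology
open Pool.Agent.N24.RW (ProNull Walk)

/-- the sequence of vectors visits all pronull sets only at times of density zero -/
def Avoids {ι : Type} [Fintype ι] (c : ℕ → ι → ℤ) : Prop :=
  ∀ P : (ι → ℤ) → Prop, ProNull {x | P x} →
    Tendsto (fun N : ℕ => (({n : ℕ | n < N ∧ P (c n)}.ncard : ℕ) : ℝ) / (N : ℝ)) atTop (𝓝 0)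

theorem avoids_path {ι α : Type} [Fintype ι] [DecidableEq ι] [Fintype α] {S : Maps ι α} {v : ι → ℤ}
    (hS : Wide S v) {p : α → ℝ} (hp : ∀ j, 0 < p j) {w : ℕ → α} (hw : Normal p w) : Avoids (path S v w) :=
  fun P hP => rare hS hp hw (B := {x | P x}) hP

theorem avoids_digits {ι : Type} [Fintype ι] [DecidableEq ι] {b : ℕ} [NeZero b] (hb : 2 ≤ b) {x : ι → ℝ}
    (hx : NormalVector b x) : Avoids (fun (n : ℕ) (i : ι) => ⌊(b : ℝ) ^ n * x i⌋) :=
  fun P hP => rare_digits hb hx (B := {x | P x}) hP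

end Pool.Agent.U125.NO
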