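import Pool.Agent.U125.NO.Seq
import Pool.Agent.N87.RO.Pos

/-!
# Residue classes are visited with positive frequency
-/

set_option autoImplicit false
set_option linter.unusedSectionVars false
set_option linter.unusedVariables false

namespace Pool.Agent.U125.NO

open Finset Filter Topology
open Pool.Agent.N24.RW (ProNull Walk orb)

variable {ι α : Type} [Fintype ι] [DecidableEq ι] [Fintype α]

/-- a residue class which can be reached is visited with positive frequency -/
theorem visits {S : Maps ι α} {v : ι → ℤ} {q : ℕ} (hq : 0 < q) (hi : ∀ j, Function.Injective (stp S q j))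
    {p : α → ℝ} (hp : ∀ j, 0 < p j) {w : ℕ → α} (hw : Normal p w) {G : ι → ℤ}
    (hG : Rch S q (rd q v) (rd q G)) :
    ∃ δ : ℝ, 0 < δ ∧ ∀ᶠ N : ℕ in atTop,
      δ * (N : ℝ) ≤ ({n : ℕ | n < N ∧ ∀ i, (q : ℤ) ∣ path S v w n i - G i}.ncard : ℝ) := by
  classical
  have : NeZero q := ⟨hq.ne'⟩
  have hfin : Fintype {x // Rch S q (rd q v) x} := Fintype.ofFinite _
  obtain ⟨x, hxd⟩ : ∃ x : ℕ → {x // Rch S q (rd q v) x}, ∀ n, (x n).1 = rd q (path S v w n) :=
    ⟨fun n => ⟨rd q (path S v w n), rch_path S v w q n⟩, fun n => rfl⟩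
  have hx : ∀ n, x (n + 1) = st' S q (rd q v) (w n) (x n) := by
    intro n
    apply Subtype.ext
    rw [hxd]
    change _ = stp S q (w n) (x n).1
    rw [hxd, rd_path]
  obtain ⟨y, hy⟩ : ∃ y : {x // Rch S q (rd q v) x}, y.1 = rd q G := ⟨⟨rd q G, hG⟩, rfl⟩
  have h1 := freq_tendsto hp hw (fun j => (fun x y h => Subtype.ext (hi j (congrArg Subtype.val h)) :
    Function.Injective (st' S q (rd q v) j))) (trans_st' hq hi (rd q v)) hx {y}
  have hX : 0 < Nat.card {x // Rch S q (rd q v) x} := Nat.card_pos_iff.2 ⟨⟨y⟩, inferInstance⟩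
  have hXr : (0 : ℝ) < Nat.card {x // Rch S q (rd q v) x} := by exact_mod_cast hX
  rw [Set.ncard_singleton, Nat.cast_one] at h1
  refine ⟨1 / (2 * (Nat.card {x // Rch S q (rd q v) x} : ℝ)), by positivity, ?_⟩
  have h3 := (tendsto_order.1 h1).1 (1 / (2 * (Nat.card {x // Rch S q (rd q v) x} : ℝ))) (by
    apply one_div_lt_one_div_of_lt hXr
    linarith)
  filter_upwards [h3, eventually_gt_atTop 0] with N hN hN0
  have hNr : (0 : ℝ) < N := by exact_mod_cast hN0
  rw [lt_div_iff₀ hNr] at hN
  refine hN.le.trans ?_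
  have h4 : {n : ℕ | n < N ∧ x n ∈ ({y} : Set {x // Rch S q (rd q v) x})}.ncard ≤
      {n : ℕ | n < N ∧ ∀ i, (q : ℤ) ∣ path S v w n i - G i}.ncard := by
    refine Set.ncard_le_ncard ?_ ((Set.finite_Iio N).subset fun n hn => hn.1)
    intro n hn
    refine ⟨hn.1, fun i => ?_⟩
    have h5 : (x n).1 = y.1 := congrArg Subtype.val hn.2
    rw [hxd, hy] at h5
    have h6 := congrFun h5 i
    unfold rd at h6
    rw [← sub_eq_zero, ← Int.cast_sub, ZMod.intCast_zmod_eq_zero_iff_dvd] at h6
    exact h6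
  exact_mod_cast h4

/-- Every class of vectors with an invertible coordinate modulo `q`, `q` prime to some `q₀`, is visited with
positive frequency. -/
def Visits (c : ℕ → ι → ℤ) : Prop :=
  ∃ q₀ : ℕ, 0 < q₀ ∧ ∀ q : ℕ, 0 < q → q.Coprime q₀ → ∀ (G : ι → ℤ) (j : ι), IsCoprime (G j) (q : ℤ) →
    ∃ δ : ℝ, 0 < δ ∧ ∀ᶠ N : ℕ in atTop,
      δ * (N : ℝ) ≤ ({n : ℕ | n < N ∧ ∀ i, (q : ℤ) ∣ c n i - G i}.ncard : ℝ)

/-- The family is transitive at `v`: for all `q` prime to some `q₀` the maps are injective modulo `q`, and every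
set of vectors modulo `q` which contains `v` and is mapped into itself by all the maps contains all vectors
with an invertible coordinate. -/
def TransAt (S : Maps ι α) (v : ι → ℤ) : Prop :=
  ∃ q₀ : ℕ, 0 < q₀ ∧ ∀ q : ℕ, 0 < q → q.Coprime q₀ →
    (∀ j, Function.Injective (stp S q j)) ∧
    ∀ Y : Set (ι → ZMod q), (fun i => ((v i : ℤ) : ZMod q)) ∈ Y → (∀ j, ∀ y ∈ Y, stp S q j y ∈ Y) →
      ∀ (y : ι → ZMod q) (i : ι), IsUnit (y i) → y ∈ Y

theorem TransAt.visits {S : Maps ι α} {v : ι → ℤ} (h : TransAt S v) {p : α → ℝ} (hp : ∀ j, 0 < p j)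
    {w : ℕ → α} (hw : Normal p w) : Visits (path S v w) := by
  obtain ⟨q₀, hq₀, h⟩ := h
  refine ⟨q₀, hq₀, fun q hq hqc G j hG => ?_⟩
  obtain ⟨hi, hY⟩ := h q hq hqc
  refine Pool.Agent.U125.NO.visits hq hi hp hw ?_
  refine hY {x | Rch S q (rd q v) x} Rch.base (fun j y hy => Rch.step j y hy) _ j ?_
  unfold rd
  rw [ZMod.coe_int_isUnit_iff_isCoprime]
  exact hG.symm

theorem transAt_walk (hι : 2 ≤ Fintype.card ι) (W : Walk ι) {v : ι → ℤ} (hv : v ≠ 0) :
    TransAt (ofWalk W) v := by
  obtain ⟨i0, hi0⟩ : ∃ i0, v i0 ≠ 0 := by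
    by_contra h
    push Not at h
    exact hv (funext h)
  have hM : 0 < W.q₀ * (v i0).natAbs := by
    have := W.pos
    have := Int.natAbs_pos.2 hi0
    positivity
  refine ⟨W.q₀ * (v i0).natAbs, hM, fun q hq hqc => ?_⟩
  have : NeZero q := ⟨hq.ne'⟩
  have hq0 : q.Coprime W.q₀ := Nat.Coprime.coprime_mul_right_right hqc
  have hc2 : q.Coprime (v i0).natAbs := Nat.Coprime.coprime_mul_left_right hqc
  have hstp : ∀ j (x : ι → ZMod q), stp (ofWalk W) q j x =
      (Matrix.SpecialLinearGroup.map (Int.castRingHom (ZMod q)) (W.s j)).1.mulVec x := by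
    intro j x
    unfold stp
    have h2 : (fun i => (((ofWalk W).b j i : ℤ) : ZMod q)) = 0 := by
      funext i
      change ((0 : ℤ) : ZMod q) = 0
      exact Int.cast_zero
    rw [h2, add_zero]
    rfl
  have hinj : ∀ h : Matrix.SpecialLinearGroup ι (ZMod q), Function.Injective fun x : ι → ZMod q =>
      h.1.mulVec x := by
    intro h x y hxy
    have h3 := congrArg (fun z => (h⁻¹).1.mulVec z) hxy
    simp only [Matrix.mulVec_mulVec] at h3
    have h4 : (h⁻¹).1 * h.1 = 1 := by
      rw [← Matrix.SpecialLinearGroup.coe_mul, inv_mul_cancel]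
      rfl
    rwa [h4, Matrix.one_mulVec, Matrix.one_mulVec] at h3
  refine ⟨fun j x y hxy => ?_, fun Y hvY hY y i hy => ?_⟩
  · rw [hstp, hstp] at hxy
    exact hinj _ hxy
  · have hall : ∀ h : Matrix.SpecialLinearGroup ι (ZMod q), ∀ y ∈ Y, h.1.mulVec y ∈ Y := by
      intro h
      have hh : h ∈ Subgroup.closure
        (Set.range fun j => Matrix.SpecialLinearGroup.map (Int.castRingHom (ZMod q)) (W.s j)) := by
        rw [W.gen q hq hq0]
        trivial
      induction hh using Subgroup.closure_induction with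
      | mem h hh =>
        obtain ⟨j, rfl⟩ := hh
        intro y hy
        have h5 := hY j y hy
        rwa [hstp] at h5
      | one =>
        intro y hy
        change (1 : Matrix ι ι (ZMod q)).mulVec y ∈ Y
        rwa [Matrix.one_mulVec]
      | mul a b _ _ ha hb =>
        intro y hy
        rw [Matrix.SpecialLinearGroup.coe_mul, ← Matrix.mulVec_mulVec]
        exact ha _ (hb _ hy)
      | inv a _ ha =>
        intro y hy
        refine inv_of_maps (hinj a) ha ?_
        change a.1.mulVec ((a⁻¹).1.mulVec y) ∈ Y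
        rw [Matrix.mulVec_mulVec, ← Matrix.SpecialLinearGroup.coe_mul, mul_inv_cancel]
        change (1 : Matrix ι ι (ZMod q)).mulVec y ∈ Y
        rwa [Matrix.one_mulVec]
    have hu : IsUnit (rd q v i0) := by
      change IsUnit (((v i0 : ℤ) : ZMod q))
      rw [ZMod.coe_int_isUnit_iff_isCoprime, Int.isCoprime_iff_gcd_eq_one]
      exact hc2
    obtain ⟨g, hg⟩ := Pool.Agent.N87.RO.transl (x := rd q v) hι hu hy
    rw [← hg]
    exact hall g _ hvY

/-- **digits**: the differences of the digits generate a group of finite index -/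
theorem transAt_digits {β : ℤ} (hβ : β ≠ 0) {d : α → ι → ℤ} (a₀ : α) {M : ℕ} (hM : 0 < M)
    (hd : ∀ i, Pi.single i (M : ℤ) ∈ AddSubgroup.closure (Set.range fun j => d j - d a₀)) (v : ι → ℤ) :
    TransAt (digits β d) v := by
  refine ⟨β.natAbs * M, Nat.mul_pos (Int.natAbs_pos.2 hβ) hM, fun q hq hqc => ?_⟩
  have : NeZero q := ⟨hq.ne'⟩
  have hc1 : q.Coprime β.natAbs := Nat.Coprime.coprime_mul_right_right hqc
  have hc2 : q.Coprime M := Nat.Coprime.coprime_mul_left_right hqc
  have hβu : IsUnit (β : ZMod q) := by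
    rw [ZMod.coe_int_isUnit_iff_isCoprime, Int.isCoprime_iff_gcd_eq_one]
    exact hc1
  have hMu : IsUnit ((M : ℕ) : ZMod q) := (ZMod.isUnit_iff_coprime M q).2 hc2.symm
  have hinj : ∀ j, Function.Injective (stp (digits β d) q j) := by
    intro j x y hxy
    rw [stp_digits, stp_digits] at hxy
    funext i
    have h1 := congrFun hxy i
    exact hβu.mul_left_cancel (add_right_cancel h1)
  refine ⟨hinj, fun Y hvY hY z _ _ => ?_⟩
  have htr : ∀ t ∈ AddSubgroup.closure (Set.range fun j => d j - d a₀),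
      ∀ y : ι → ZMod q, y ∈ Y → (y + fun i => ((t i : ℤ) : ZMod q)) ∈ Y := by
    intro t ht
    induction ht using AddSubgroup.closure_induction with
    | mem t ht =>
      obtain ⟨j, rfl⟩ := ht
      intro y hy
      obtain ⟨b', hb'⟩ := hβu.exists_left_inv
      set x : ι → ZMod q := fun i => b' * (y i - ((d a₀ i : ℤ) : ZMod q)) with hx
      have hbb : (β : ZMod q) * b' = 1 := by rw [mul_comm]; exact hb'
      have h0 : stp (digits β d) q a₀ x = y := by
        rw [stp_digits]
        funext i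
        simp only [hx]
        rw [← mul_assoc, hbb, one_mul, sub_add_cancel]
      have hxY : x ∈ Y := inv_of_maps (hinj a₀) (fun y hy => hY a₀ y hy) (by rw [h0]; exact hy)
      have h1 := hY j x hxY
      have h2 : stp (digits β d) q j x = y + fun i => (((d j - d a₀) i : ℤ) : ZMod q) := by
        rw [stp_digits]
        funext i
        simp only [hx, Pi.add_apply, Pi.sub_apply, Int.cast_sub]
        rw [← mul_assoc, hbb, one_mul]
        ring
      rwa [h2] at h1
    | zero =>
      intro y hy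
      have : (y + fun i : ι => (((0 : ι → ℤ) i : ℤ) : ZMod q)) = y := by
        funext i
        simp
      rwa [this]
    | add a b _ _ ha hb =>
      intro y hy
      have h1 := hb _ (ha y hy)
      have h2 : (y + fun i => (((a + b) i : ℤ) : ZMod q)) =
          (y + fun i => ((a i : ℤ) : ZMod q)) + fun i => ((b i : ℤ) : ZMod q) := by
        funext i
        simp only [Pi.add_apply, Int.cast_add]
        ring
      rwa [h2]
    | neg a _ ha =>
      intro y hy
      refine inv_of_maps (f := fun y : ι → ZMod q => y + fun i => ((a i : ℤ) : ZMod q))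
        (fun x y h => add_right_cancel h) (fun y hy => ha y hy) ?_
      have h2 : ((y + fun i => (((-a) i : ℤ) : ZMod q)) + fun i => ((a i : ℤ) : ZMod q)) = y := by
        funext i
        simp
      change ((y + fun i => (((-a) i : ℤ) : ZMod q)) + fun i => ((a i : ℤ) : ZMod q)) ∈ Y
      rwa [h2]
  have hcoord : ∀ (i : ι) (c : ZMod q), ∀ y ∈ Y, (y + Pi.single i c) ∈ Y := by
    intro i c y hy
    obtain ⟨u, hu⟩ := hMu
    obtain ⟨n, hn⟩ : ∃ n : ℕ, (n : ZMod q) = (u⁻¹ : (ZMod q)ˣ) * c :=
      ⟨((u⁻¹ : (ZMod q)ˣ) * c : ZMod q).val, ZMod.natCast_zmod_val _⟩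
    have h1 := htr (n • Pi.single i (M : ℤ)) (AddSubgroup.nsmul_mem _ (hd i) n) y hy
    have h2 : (fun k => (((n • Pi.single i (M : ℤ) : ι → ℤ) k : ℤ) : ZMod q)) = Pi.single i c := by
      funext k
      by_cases hk : k = i
      · subst hk
        simp only [Pi.smul_apply, Pi.single_eq_same, nsmul_eq_mul, Int.cast_mul, Int.cast_natCast]
        rw [hn, ← hu]
        rw [mul_comm, ← mul_assoc, Units.mul_inv, one_mul]
      · simp [Pi.single_eq_of_ne hk]
    rwa [h2] at h1
  have h3 : ∀ S : Finset ι, (S.piecewise z (rd q v)) ∈ Y := by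
    intro S
    induction S using Finset.induction_on with
    | empty =>
      rw [Finset.piecewise_empty]
      exact hvY
    | insert j S hj ih =>
      have h4 := hcoord j (z j - rd q v j) _ ih
      have h5 : S.piecewise z (rd q v) + Pi.single j (z j - rd q v j) =
          (insert j S).piecewise z (rd q v) := by
        rw [Finset.piecewise_insert]
        funext k
        by_cases hk : k = j
        · subst hk
          rw [Pi.add_apply, Pi.single_eq_same, Function.update_self,
            Finset.piecewise_eq_of_notMem _ _ _ hj]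
          ring
        · rw [Pi.add_apply, Pi.single_eq_of_ne hk, Function.update_of_ne hk, add_zero]
      rwa [h5] at h4
  have h6 := h3 univ
  rwa [Finset.piecewise_univ] at h6

theorem transAt_allDigits {b : ℕ} (hb : 2 ≤ b) (v : ι → ℤ) : TransAt (allDigits ι b) v := by
  have : NeZero b := ⟨by omega⟩
  have h1 : (1 : ℕ) < b := hb
  refine transAt_digits (β := (b : ℤ)) (d := fun (d : ι → Fin b) i => ((d i : ℕ) : ℤ)) (by positivity)
    (fun _ => (0 : Fin b)) (M := 1) one_pos (fun i => ?_) v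
  refine AddSubgroup.subset_closure ⟨Pi.single i ⟨1, h1⟩, ?_⟩
  funext k
  by_cases hk : k = i
  · subst hk
    simp
  · simp [Pi.single_eq_of_ne hk]

end Pool.Agent.U125.NO
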