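import Pool.Agent.U125.NO.Seq
import Pool.Agent.N763.SC.Seq

/-!
# Frequencies of the residue classes along normal orbits
-/

set_option autoImplicit false

namespace Pool.Agent.U125.NO

open Filter Topology
open Pool.Agent.N763.SC (cnt Freq)

/-- along a normal orbit the frequencies of the residue classes modulo all `q` prime to some `M` are at most a
constant times the uniform ones -/
theorem NormalOrbit.freq {d : ℕ} {c : ℕ → Fin d → ℤ} (h : NormalOrbit c) :
    ∃ M : ℕ, 0 < M ∧ ∃ C : ℝ, 0 < C ∧ ∀ q : ℕ, 0 < q → q.Coprime M → Freq c q C := by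
  obtain ⟨M, hM, κ, hκ, hu⟩ := h.upper
  refine ⟨M, hM, κ⁻¹, inv_pos.2 hκ, fun q hq hqM S δ hδ => ?_⟩
  have hqr : (0 : ℝ) < (q : ℝ) ^ d := by
    have : (0 : ℝ) < q := by exact_mod_cast hq
    positivity
  have : NeZero q := ⟨hq.ne'⟩
  have h1 := hu q hq hqM (fun v => (fun l => ((v l : ℤ) : ZMod q)) ∈ S) ((S.ncard : ℝ) / (q : ℝ) ^ d)
    (by positivity) (by
      rw [Fintype.card_fin, div_mul_cancel₀ _ hqr.ne']
      have h2 : (((fun (c : Fin d → ℤ) (i : Fin d) => (c i : ZMod q)) ''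
          {u : Fin d → ℤ | (fun l => ((u l : ℤ) : ZMod q)) ∈ S}).ncard) ≤ S.ncard := by
        refine Set.ncard_le_ncard ?_ (Set.toFinite _)
        rintro _ ⟨u, hu, rfl⟩
        exact hu
      exact_mod_cast h2) δ hδ
  filter_upwards [h1] with N hN
  rw [← div_eq_inv_mul]
  exact hN

end Pool.Agent.U125.NO
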