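import Pool.Agent.U125.NO.Ex

/-!
# The integer parts of the multiples `b ^ n x` of a normal vector
-/

set_option autoImplicit false
set_option linter.unusedSectionVars false
set_option linter.unusedVariables false

namespace Pool.Agent.U125.NO

open Finset Filter Topology
open Pool.Agent.N24.RW (ProNull)

variable {ι : Type} [Fintype ι] [DecidableEq ι]

/-- The vector of the digits number `n + 1` after the point of the coordinates `x i` to the base `b`. -/
noncomputable def digit (b : ℕ) [NeZero b] (x : ι → ℝ) (n : ℕ) (i : ι) : Fin b :=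
  Fin.ofNat b (⌊(b : ℝ) ^ (n + 1) * x i⌋ % (b : ℤ)).toNat

/-- The real vector `x` is normal to the base `b`: every word of length `k` of vectors of digits occurs in the
sequence of its vectors of digits with the frequency `b ^ (- k r)`, `r` the number of the coordinates. For
`r = 1` these are the normal numbers of Borel. -/
def NormalVector (b : ℕ) [NeZero b] (x : ι → ℝ) : Prop :=
  Normal (fun _ : ι → Fin b => (1 / (b : ℝ) ^ Fintype.card ι)) (digit b x)

theorem digit_spec (b : ℕ) [NeZero b] (x : ι → ℝ) (n : ℕ) (i : ι) :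
    ⌊(b : ℝ) ^ (n + 1) * x i⌋ = (b : ℤ) * ⌊(b : ℝ) ^ n * x i⌋ + ((digit b x n i : ℕ) : ℤ) := by
  have hb : (0 : ℤ) < b := by
    have : 0 < b := Nat.pos_of_ne_zero (NeZero.ne b)
    exact_mod_cast this
  have hb' : (0 : ℝ) < b := by exact_mod_cast hb
  have h1 : ⌊(b : ℝ) ^ (n + 1) * x i⌋ / (b : ℤ) = ⌊(b : ℝ) ^ n * x i⌋ := by
    have h2 : (b : ℝ) ^ n * x i = ((b : ℝ) ^ (n + 1) * x i) / ((b : ℕ) : ℝ) := by
      rw [pow_succ]
      field_simp
    rw [h2, Int.floor_div_natCast]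
  have h3 := Int.mul_ediv_add_emod ⌊(b : ℝ) ^ (n + 1) * x i⌋ (b : ℤ)
  rw [h1] at h3
  have h4 : (((digit b x n i : ℕ) : ℤ)) = ⌊(b : ℝ) ^ (n + 1) * x i⌋ % (b : ℤ) := by
    have h5 : 0 ≤ ⌊(b : ℝ) ^ (n + 1) * x i⌋ % (b : ℤ) := Int.emod_nonneg _ hb.ne'
    have h6 : ⌊(b : ℝ) ^ (n + 1) * x i⌋ % (b : ℤ) < b := Int.emod_lt_of_pos _ hb
    unfold digit
    rw [Fin.val_ofNat]
    have h7 : (⌊(b : ℝ) ^ (n + 1) * x i⌋ % (b : ℤ)).toNat < b := by
      zify
      rw [Int.toNat_of_nonneg h5]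
      exact h6
    rw [Nat.mod_eq_of_lt h7, Int.toNat_of_nonneg h5]
  rw [h4]
  exact h3.symm

/-- the maps `x ↦ b x + d` for all vectors `d` of digits -/
def allDigits (ι : Type) [DecidableEq ι] (b : ℕ) : Maps ι (ι → Fin b) :=
  ⟨fun _ => Matrix.diagonal fun _ => (b : ℤ), fun d i => ((d i : ℕ) : ℤ)⟩

theorem path_digit (b : ℕ) [NeZero b] (x : ι → ℝ) (n : ℕ) :
    path (allDigits ι b) (fun i => ⌊x i⌋) (digit b x) n = fun i => ⌊(b : ℝ) ^ n * x i⌋ := by
  induction n with
  | zero =>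
    funext i
    simp [path]
  | succ n ih =>
    funext i
    simp only [path, allDigits, Pi.add_apply]
    rw [Matrix.mulVec_diagonal, digit_spec b x n i]
    congr 2
    exact congrFun ih i

theorem wide_allDigits {b : ℕ} (hb : 2 ≤ b) (v : ι → ℤ) : Wide (allDigits ι b) v := by
  have : NeZero b := ⟨by omega⟩
  have h1 : (1 : ℕ) < b := hb
  refine wide_digits (β := (b : ℤ)) (d := fun (d : ι → Fin b) i => ((d i : ℕ) : ℤ)) (by positivity)
    (fun _ => (0 : Fin b)) (M := 1) one_pos (fun i => ?_) v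
  refine AddSubgroup.subset_closure ⟨Pi.single i ⟨1, h1⟩, ?_⟩
  funext k
  by_cases hk : k = i
  · subst hk
    simp
  · simp [Pi.single_eq_of_ne hk]

/-- **normal vectors** -/
theorem rare_digits {b : ℕ} [NeZero b] (hb : 2 ≤ b) {x : ι → ℝ} (hx : NormalVector b x) {B : Set (ι → ℤ)}
    (hB : ProNull B) :
    Tendsto (fun N : ℕ => (({n : ℕ | n < N ∧ (fun i => ⌊(b : ℝ) ^ n * x i⌋) ∈ B}.ncard : ℕ) : ℝ) / (N : ℝ))
      atTop (𝓝 0) := by
  have hb0 : (0 : ℝ) < b := by
    have : 0 < b := by omega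
    exact_mod_cast this
  have h := rare (wide_allDigits hb (fun i => ⌊x i⌋)) (p := fun _ : ι → Fin b => (1 / (b : ℝ) ^ Fintype.card ι))
    (fun _ => by positivity) hx hB
  simp only [path_digit] at h
  exact h

end Pool.Agent.U125.NO
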