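import Pool.Agent.U125.NO.Sys

/-!
# Three classes of wide families of affine maps

* finite families of matrices of determinant one which generate the special linear group modulo all `q`
  prime to some `q₀`;
* digits: the maps `x ↦ β x + d j`;
* continued fractions: the matrices with the rows `(a j, 1)`, `(1, 0)`.
-/

set_option autoImplicit false
set_option linter.unusedSectionVars false
set_option linter.unusedVariables false

namespace Pool.Agent.U125.NO

open Finset Filter Topology
open Pool.Agent.N24.RW (ProNull Walk)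

variable {ι α : Type} [Fintype ι] [DecidableEq ι] [Fintype α]

/-! ### Invariant sets -/

theorem inv_of_maps {X : Type} [Finite X] {f : X → X} (hf : Function.Injective f) {Y : Set X}
    (h : ∀ y ∈ Y, f y ∈ Y) {x : X} (hx : f x ∈ Y) : x ∈ Y := by
  have himg : f '' Y = Y := by
    refine Set.eq_of_subset_of_ncard_le ?_ ?_ (Set.toFinite _)
    · rintro _ ⟨y, hy, rfl⟩
      exact h y hy
    · rw [Set.ncard_image_of_injective _ hf]
  rw [← himg] at hx
  obtain ⟨y, hy, hyx⟩ := hx
  exact hf hyx ▸ hy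

/-! ### Matrices of determinant one -/

/-- the family of the linear maps given by the matrices of the walk `W` -/
def ofWalk (W : Walk ι) : Maps ι (Fin (W.m + 1)) := ⟨fun j => (W.s j).1, fun _ => 0⟩

theorem path_ofWalk (W : Walk ι) (v : ι → ℤ) (w : ℕ → Fin (W.m + 1)) (n : ℕ) :
    path (ofWalk W) v w n = Pool.Agent.N24.RW.orb W v w n := by
  induction n with
  | zero => rfl
  | succ n ih =>
    change ((W.s (w n)).1).mulVec (path (ofWalk W) v w n) + 0 = (W.s (w n)).1.mulVec _
    rw [ih, add_zero]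

theorem unimodular {v : ι → ℤ} {i0 : ι} {q : ℕ} (hqc : q.Coprime (v i0).natAbs) :
    Ideal.span (Set.range (rd q v)) = ⊤ := by
  have hu : IsUnit (rd q v i0) := by
    unfold rd
    rw [ZMod.coe_int_isUnit_iff_isCoprime, Int.isCoprime_iff_gcd_eq_one]
    exact hqc
  exact Ideal.eq_top_of_isUnit_mem _ (Ideal.subset_span ⟨i0, rfl⟩) hu

theorem wide_walk (hι : 2 ≤ Fintype.card ι) (W : Walk ι) {v : ι → ℤ} (hv : v ≠ 0) :
    Wide (ofWalk W) v := by
  obtain ⟨i0, hi0⟩ : ∃ i0, v i0 ≠ 0 := by
    by_contra h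
    push Not at h
    exact hv (funext h)
  have hM : 0 < 2 * W.q₀ * (v i0).natAbs := by
    have := W.pos
    have := Int.natAbs_pos.2 hi0
    positivity
  refine ⟨2 * W.q₀ * (v i0).natAbs, hM, 1 / 2, by norm_num, fun q hq hqc => ?_⟩
  have : NeZero q := ⟨hq.ne'⟩
  have hc1 : q.Coprime (2 * W.q₀) := Nat.Coprime.coprime_mul_right_right hqc
  have hc2 : q.Coprime (v i0).natAbs := Nat.Coprime.coprime_mul_left_right hqc
  have hodd : Odd q := Nat.coprime_two_right.1 (Nat.Coprime.coprime_mul_right_right hc1)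
  have hq0 : q.Coprime W.q₀ := Nat.Coprime.coprime_mul_left_right hc1
  have hstp : ∀ j (x : ι → ZMod q), stp (ofWalk W) q j x =
      (Matrix.SpecialLinearGroup.map (Int.castRingHom (ZMod q)) (W.s j)).1.mulVec x := by
    intro j x
    unfold stp
    have h2 : (fun i => (((ofWalk W).b j i : ℤ) : ZMod q)) = 0 := by
      funext i
      change ((0 : ℤ) : ZMod q) = 0
      exact Int.cast_zero
    rw [h2, add_zero]
    rfl
  have hinj : ∀ h : Matrix.SpecialLinearGroup ι (ZMod q), Function.Injective fun x : ι → ZMod q =>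
      h.1.mulVec x := by
    intro h x y hxy
    have h3 := congrArg (fun z => (h⁻¹).1.mulVec z) hxy
    simp only [Matrix.mulVec_mulVec] at h3
    have h4 : (h⁻¹).1 * h.1 = 1 := by
      rw [← Matrix.SpecialLinearGroup.coe_mul, inv_mul_cancel]
      rfl
    rwa [h4, Matrix.one_mulVec, Matrix.one_mulVec] at h3
  refine ⟨fun j x y hxy => ?_, fun Y hvY hY => ?_⟩
  · rw [hstp, hstp] at hxy
    exact hinj _ hxy
  · have hall : ∀ h : Matrix.SpecialLinearGroup ι (ZMod q), ∀ y ∈ Y, h.1.mulVec y ∈ Y := by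
      intro h
      have hh : h ∈ Subgroup.closure
        (Set.range fun j => Matrix.SpecialLinearGroup.map (Int.castRingHom (ZMod q)) (W.s j)) := by
        rw [W.gen q hq hq0]
        trivial
      induction hh using Subgroup.closure_induction with
      | mem h hh =>
        obtain ⟨j, rfl⟩ := hh
        intro y hy
        have h5 := hY j y hy
        rwa [hstp] at h5
      | one =>
        intro y hy
        change (1 : Matrix ι ι (ZMod q)).mulVec y ∈ Y
        rwa [Matrix.one_mulVec]
      | mul a b _ _ ha hb =>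
        intro y hy
        rw [Matrix.SpecialLinearGroup.coe_mul, ← Matrix.mulVec_mulVec]
        exact ha _ (hb _ hy)
      | inv a _ ha =>
        intro y hy
        refine inv_of_maps (hinj a) ha ?_
        change a.1.mulVec ((a⁻¹).1.mulVec y) ∈ Y
        rw [Matrix.mulVec_mulVec, ← Matrix.SpecialLinearGroup.coe_mul, mul_inv_cancel]
        change (1 : Matrix ι ι (ZMod q)).mulVec y ∈ Y
        rwa [Matrix.one_mulVec]
    have h6 := Pool.Agent.N24.RW.t_ORB ι hι q hq hodd (rd q v) (unimodular hc2)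
    have h7 : (Set.range fun h : Matrix.SpecialLinearGroup ι (ZMod q) => h.1.mulVec (rd q v)).ncard ≤
        Y.ncard := by
      refine Set.ncard_le_ncard ?_ (Set.toFinite _)
      rintro _ ⟨h, rfl⟩
      exact hall h _ hvY
    have h8 : ((Set.range fun h : Matrix.SpecialLinearGroup ι (ZMod q) => h.1.mulVec (rd q v)).ncard : ℝ) ≤
        (Y.ncard : ℝ) := by exact_mod_cast h7
    linarith

/-! ### Digits -/

/-- The maps `x ↦ β x + d j`; so `path` gives the vectors with the digits `d (w 0), …, d (w (n - 1))` to the base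
`β`. -/
def digits (β : ℤ) (d : α → ι → ℤ) : Maps ι α := ⟨fun _ => Matrix.diagonal fun _ => β, d⟩

theorem stp_digits (β : ℤ) (d : α → ι → ℤ) (q : ℕ) (j : α) (x : ι → ZMod q) :
    stp (digits β d) q j x = fun i => (β : ZMod q) * x i + ((d j i : ℤ) : ZMod q) := by
  funext i
  unfold stp digits
  simp only [Pi.add_apply]
  congr 1
  have h : (Matrix.diagonal fun _ : ι => β).map (Int.castRingHom (ZMod q)) =
      Matrix.diagonal fun _ : ι => (β : ZMod q) := by
    rw [Matrix.diagonal_map (map_zero _)]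
    rfl
  rw [h, Matrix.mulVec_diagonal]

/-- **digits**: the differences of the digits generate a group of finite index -/
theorem wide_digits {β : ℤ} (hβ : β ≠ 0) {d : α → ι → ℤ} (a₀ : α) {M : ℕ} (hM : 0 < M)
    (hd : ∀ i, Pi.single i (M : ℤ) ∈ AddSubgroup.closure (Set.range fun j => d j - d a₀)) (v : ι → ℤ) :
    Wide (digits β d) v := by
  refine ⟨β.natAbs * M, Nat.mul_pos (Int.natAbs_pos.2 hβ) hM, 1, one_pos, fun q hq hqc => ?_⟩
  have : NeZero q := ⟨hq.ne'⟩
  have hc1 : q.Coprime β.natAbs := Nat.Coprime.coprime_mul_right_right hqc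
  have hc2 : q.Coprime M := Nat.Coprime.coprime_mul_left_right hqc
  have hβu : IsUnit (β : ZMod q) := by
    rw [ZMod.coe_int_isUnit_iff_isCoprime, Int.isCoprime_iff_gcd_eq_one]
    exact hc1
  have hMu : IsUnit ((M : ℕ) : ZMod q) := (ZMod.isUnit_iff_coprime M q).2 hc2.symm
  have hinj : ∀ j, Function.Injective (stp (digits β d) q j) := by
    intro j x y hxy
    rw [stp_digits, stp_digits] at hxy
    funext i
    have h1 := congrFun hxy i
    exact hβu.mul_left_cancel (add_right_cancel h1)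
  refine ⟨hinj, fun Y hvY hY => ?_⟩
  -- translations by the differences
  have htr : ∀ t ∈ AddSubgroup.closure (Set.range fun j => d j - d a₀),
      ∀ y : ι → ZMod q, y ∈ Y → (y + fun i => ((t i : ℤ) : ZMod q)) ∈ Y := by
    intro t ht
    induction ht using AddSubgroup.closure_induction with
    | mem t ht =>
      obtain ⟨j, rfl⟩ := ht
      intro y hy
      obtain ⟨b', hb'⟩ := hβu.exists_left_inv
      set x : ι → ZMod q := fun i => b' * (y i - ((d a₀ i : ℤ) : ZMod q)) with hx
      have hbb : (β : ZMod q) * b' = 1 := by rw [mul_comm]; exact hb'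
      have h0 : stp (digits β d) q a₀ x = y := by
        rw [stp_digits]
        funext i
        simp only [hx]
        rw [← mul_assoc, hbb, one_mul, sub_add_cancel]
      have hxY : x ∈ Y := inv_of_maps (hinj a₀) (fun y hy => hY a₀ y hy) (by rw [h0]; exact hy)
      have h1 := hY j x hxY
      have h2 : stp (digits β d) q j x = y + fun i => (((d j - d a₀) i : ℤ) : ZMod q) := by
        rw [stp_digits]
        funext i
        simp only [hx, Pi.add_apply, Pi.sub_apply, Int.cast_sub]
        rw [← mul_assoc, hbb, one_mul]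
        ring
      rwa [h2] at h1
    | zero =>
      intro y hy
      have : (y + fun i : ι => (((0 : ι → ℤ) i : ℤ) : ZMod q)) = y := by
        funext i
        simp
      rwa [this]
    | add a b _ _ ha hb =>
      intro y hy
      have h1 := hb _ (ha y hy)
      have h2 : (y + fun i => (((a + b) i : ℤ) : ZMod q)) =
          (y + fun i => ((a i : ℤ) : ZMod q)) + fun i => ((b i : ℤ) : ZMod q) := by
        funext i
        simp only [Pi.add_apply, Int.cast_add]
        ring
      rwa [h2]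
    | neg a _ ha =>
      intro y hy
      refine inv_of_maps (f := fun y : ι → ZMod q => y + fun i => ((a i : ℤ) : ZMod q))
        (fun x y h => add_right_cancel h) (fun y hy => ha y hy) ?_
      have h2 : ((y + fun i => (((-a) i : ℤ) : ZMod q)) + fun i => ((a i : ℤ) : ZMod q)) = y := by
        funext i
        simp
      change ((y + fun i => (((-a) i : ℤ) : ZMod q)) + fun i => ((a i : ℤ) : ZMod q)) ∈ Y
      rwa [h2]
  have hcoord : ∀ (i : ι) (c : ZMod q), ∀ y ∈ Y, (y + Pi.single i c) ∈ Y := by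
    intro i c y hy
    obtain ⟨u, hu⟩ := hMu
    obtain ⟨n, hn⟩ : ∃ n : ℕ, (n : ZMod q) = (u⁻¹ : (ZMod q)ˣ) * c :=
      ⟨((u⁻¹ : (ZMod q)ˣ) * c : ZMod q).val, ZMod.natCast_zmod_val _⟩
    have h1 := htr (n • Pi.single i (M : ℤ)) (AddSubgroup.nsmul_mem _ (hd i) n) y hy
    have h2 : (fun k => (((n • Pi.single i (M : ℤ) : ι → ℤ) k : ℤ) : ZMod q)) = Pi.single i c := by
      funext k
      by_cases hk : k = i
      · subst hk
        simp only [Pi.smul_apply, Pi.single_eq_same, nsmul_eq_mul, Int.cast_mul, Int.cast_natCast]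
        rw [hn, ← hu]
        rw [mul_comm, ← mul_assoc, Units.mul_inv, one_mul]
      · simp [Pi.single_eq_of_ne hk]
    rwa [h2] at h1
  have hall : Y = Set.univ := by
    ext z
    refine ⟨fun _ => trivial, fun _ => ?_⟩
    have h3 : ∀ S : Finset ι, (S.piecewise z (rd q v)) ∈ Y := by
      intro S
      induction S using Finset.induction_on with
      | empty =>
        rw [Finset.piecewise_empty]
        exact hvY
      | insert j S hj ih =>
        have h4 := hcoord j (z j - rd q v j) _ ih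
        have h5 : S.piecewise z (rd q v) + Pi.single j (z j - rd q v j) =
            (insert j S).piecewise z (rd q v) := by
          rw [Finset.piecewise_insert]
          funext k
          by_cases hk : k = j
          · subst hk
            rw [Pi.add_apply, Pi.single_eq_same, Function.update_self,
              Finset.piecewise_eq_of_notMem _ _ _ hj]
            ring
          · rw [Pi.add_apply, Pi.single_eq_of_ne hk, Function.update_of_ne hk, add_zero]
        rwa [h5] at h4
    have h6 := h3 univ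
    rwa [Finset.piecewise_univ] at h6
  rw [hall, Set.ncard_univ, one_mul]
  have h7 : Nat.card (ι → ZMod q) = q ^ Fintype.card ι := by
    rw [Nat.card_eq_fintype_card, Fintype.card_fun, ZMod.card]
  rw [h7]
  push_cast
  exact le_rfl

/-! ### Continued fractions -/

/-- The linear maps `(x, y) ↦ (a j x + y, x)`. -/
def fractions (a : α → ℤ) : Maps (Fin 2) α := ⟨fun j => !![a j, 1; 1, 0], fun _ => 0⟩

theorem stp_fractions (a : α → ℤ) (q : ℕ) (j : α) (x : Fin 2 → ZMod q) :
    stp (fractions a) q j x = ![(a j : ZMod q) * x 0 + x 1, x 0] := by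
  funext i
  unfold stp fractions
  fin_cases i <;> simp

open Pool.Agent.N24.RW.Orb (Um φ) in
theorem to_one {q : ℕ} (hq : 0 < q) {Y : Set (Fin 2 → ZMod q)}
    (h0 : ∀ c : ZMod q, ∀ y ∈ Y, ![y 0 + c * y 1, y 1] ∈ Y)
    (h1 : ∀ c : ZMod q, ∀ y ∈ Y, ![y 0, y 1 + c * y 0] ∈ Y) {u : Fin 2 → ZMod q} (hu : Um u)
    (huY : u ∈ Y) : ![1, 0] ∈ Y := by
  obtain ⟨t, ht⟩ := Pool.Agent.N24.RW.Orb.stable hq (u 0) (u 1)
  have hunit : IsUnit (u 0 + t * u 1) := by
    refine Pool.Agent.N24.RW.Orb.unit_of hq _ fun p hp h hz => ?_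
    obtain ⟨h2, h3⟩ := ht p hp h hz
    obtain ⟨i, hi⟩ := hu p hp h
    fin_cases i
    · exact hi h2
    · exact hi h3
  obtain ⟨b, hb⟩ := hunit.exists_left_inv
  set x := u 0 + t * u 1 with hx
  have e1 : ![x, u 1] ∈ Y := h0 t u huY
  have e2 := h1 ((1 - u 1) * b) _ e1
  have e2' : ![(![x, u 1] : Fin 2 → ZMod q) 0, (![x, u 1] : Fin 2 → ZMod q) 1 +
      (1 - u 1) * b * (![x, u 1] : Fin 2 → ZMod q) 0] = ![x, 1] := by
    simp only [Matrix.cons_val_zero, Matrix.cons_val_one]
    rw [mul_assoc, hb, mul_one]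
    congr 2
    ring
  rw [e2'] at e2
  have e3 := h0 (1 - x) _ e2
  have e3' : ![(![x, 1] : Fin 2 → ZMod q) 0 + (1 - x) * (![x, 1] : Fin 2 → ZMod q) 1,
      (![x, 1] : Fin 2 → ZMod q) 1] = ![1, 1] := by
    simp only [Matrix.cons_val_zero, Matrix.cons_val_one]
    congr 1
    ring
  rw [e3'] at e3
  have e4 := h1 (-1) _ e3
  have e4' : ![(![1, 1] : Fin 2 → ZMod q) 0, (![1, 1] : Fin 2 → ZMod q) 1 +
      (-1) * (![1, 1] : Fin 2 → ZMod q) 0] = ![1, 0] := by
    simp only [Matrix.cons_val_zero, Matrix.cons_val_one]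
    congr 2
    ring
  rwa [e4'] at e4

open Pool.Agent.N24.RW.Orb (Um) in
theorem all_um {q : ℕ} (hq : 0 < q) {Y : Set (Fin 2 → ZMod q)}
    (h0 : ∀ c : ZMod q, ∀ y ∈ Y, ![y 0 + c * y 1, y 1] ∈ Y)
    (h1 : ∀ c : ZMod q, ∀ y ∈ Y, ![y 0, y 1 + c * y 0] ∈ Y) {u : Fin 2 → ZMod q} (hu : Um u)
    (huY : u ∈ Y) : {z : Fin 2 → ZMod q | Um z} ⊆ Y := by
  intro z hz
  by_contra hzY
  have e : ∀ y : Fin 2 → ZMod q, ![y 0, y 1] = y := by
    intro y
    funext i
    fin_cases i <;> rfl
  have k0 : ∀ c : ZMod q, ∀ y ∈ Yᶜ, ![y 0 + c * y 1, y 1] ∈ Yᶜ := by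
    intro c y hy hmem
    apply hy
    have h2 := h0 (-c) _ hmem
    simp only [Matrix.cons_val_zero, Matrix.cons_val_one] at h2
    have h3 : ![y 0 + c * y 1 + -c * y 1, y 1] = y := by
      rw [show y 0 + c * y 1 + -c * y 1 = y 0 by ring, e]
    rwa [h3] at h2
  have k1 : ∀ c : ZMod q, ∀ y ∈ Yᶜ, ![y 0, y 1 + c * y 0] ∈ Yᶜ := by
    intro c y hy hmem
    apply hy
    have h2 := h1 (-c) _ hmem
    simp only [Matrix.cons_val_zero, Matrix.cons_val_one] at h2
    have h3 : ![y 0, y 1 + c * y 0 + -c * y 0] = y := by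
      rw [show y 1 + c * y 0 + -c * y 0 = y 1 by ring, e]
    rwa [h3] at h2
  exact to_one hq k0 k1 hz hzY (to_one hq h0 h1 hu huY)

/-- **continued fractions** with partial quotients from a set with at least two elements -/
theorem wide_fractions {a : α → ℤ} {j₁ j₂ : α} (ha : a j₁ ≠ a j₂)
    {v : Fin 2 → ℤ} (hv : v ≠ 0) : Wide (fractions a) v := by
  obtain ⟨i0, hi0⟩ : ∃ i0, v i0 ≠ 0 := by
    by_contra h
    push Not at h
    exact hv (funext h)
  have hd : a j₁ - a j₂ ≠ 0 := sub_ne_zero.2 ha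
  have hM : 0 < 2 * (a j₁ - a j₂).natAbs * (v i0).natAbs := by
    have := Int.natAbs_pos.2 hd
    have := Int.natAbs_pos.2 hi0
    positivity
  refine ⟨2 * (a j₁ - a j₂).natAbs * (v i0).natAbs, hM, 1 / 2, by norm_num, fun q hq hqc => ?_⟩
  have : NeZero q := ⟨hq.ne'⟩
  have hc1 : q.Coprime (2 * (a j₁ - a j₂).natAbs) := Nat.Coprime.coprime_mul_right_right hqc
  have hc2 : q.Coprime (v i0).natAbs := Nat.Coprime.coprime_mul_left_right hqc
  have hodd : Odd q := Nat.coprime_two_right.1 (Nat.Coprime.coprime_mul_right_right hc1)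
  have hq0 : q.Coprime (a j₁ - a j₂).natAbs := Nat.Coprime.coprime_mul_left_right hc1
  have hdu : IsUnit ((a j₁ : ZMod q) - (a j₂ : ZMod q)) := by
    have : (a j₁ : ZMod q) - (a j₂ : ZMod q) = ((a j₁ - a j₂ : ℤ) : ZMod q) := by push_cast; ring
    rw [this, ZMod.coe_int_isUnit_iff_isCoprime, Int.isCoprime_iff_gcd_eq_one]
    exact hq0
  have e : ∀ y : Fin 2 → ZMod q, ![y 0, y 1] = y := by
    intro y
    funext i
    fin_cases i <;> rfl
  have hinj : ∀ j, Function.Injective (stp (fractions a) q j) := by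
    intro j x y hxy
    rw [stp_fractions, stp_fractions] at hxy
    have h1 : x 0 = y 0 := by
      have := congrFun hxy 1
      simpa using this
    have h0 : (a j : ZMod q) * x 0 + x 1 = (a j : ZMod q) * y 0 + y 1 := by
      have := congrFun hxy 0
      simpa using this
    rw [h1] at h0
    have h2 := add_left_cancel h0
    rw [← e x, ← e y, h1, h2]
  refine ⟨hinj, fun Y hvY hY => ?_⟩
  -- one step of each kind
  have s0 : ∀ y ∈ Y, ![y 0 + ((a j₁ : ZMod q) - a j₂) * y 1, y 1] ∈ Y := by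
    intro y hy
    have h1 : stp (fractions a) q j₂ ![y 1, y 0 - (a j₂ : ZMod q) * y 1] = y := by
      rw [stp_fractions]
      simp only [Matrix.cons_val_zero, Matrix.cons_val_one]
      rw [show (a j₂ : ZMod q) * y 1 + (y 0 - (a j₂ : ZMod q) * y 1) = y 0 by ring, e]
    have h2 := inv_of_maps (hinj j₂) (fun y hy => hY j₂ y hy) (by rw [h1]; exact hy)
    have h3 := hY j₁ _ h2
    rw [stp_fractions] at h3
    simp only [Matrix.cons_val_zero, Matrix.cons_val_one] at h3
    rwa [show (a j₁ : ZMod q) * y 1 + (y 0 - (a j₂ : ZMod q) * y 1) =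
      y 0 + ((a j₁ : ZMod q) - a j₂) * y 1 by ring] at h3
  have s1 : ∀ y ∈ Y, ![y 0, y 1 + ((a j₁ : ZMod q) - a j₂) * y 0] ∈ Y := by
    intro y hy
    refine inv_of_maps (hinj j₂) (fun y hy => hY j₂ y hy) ?_
    have h1 := hY j₁ y hy
    rw [stp_fractions] at h1
    rw [stp_fractions]
    simp only [Matrix.cons_val_zero, Matrix.cons_val_one]
    rwa [show (a j₂ : ZMod q) * y 0 + (y 1 + ((a j₁ : ZMod q) - a j₂) * y 0) =
      (a j₁ : ZMod q) * y 0 + y 1 by ring]
  obtain ⟨b, hb⟩ := hdu.exists_left_inv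
  have t0 : ∀ c : ZMod q, ∀ y ∈ Y, ![y 0 + c * y 1, y 1] ∈ Y := by
    intro c y hy
    have h1 : ∀ n : ℕ, ![y 0 + n * ((a j₁ : ZMod q) - a j₂) * y 1, y 1] ∈ Y := by
      intro n
      induction n with
      | zero =>
        rw [Nat.cast_zero, zero_mul, zero_mul, add_zero, e]
        exact hy
      | succ n ih =>
        have h2 := s0 _ ih
        simp only [Matrix.cons_val_zero, Matrix.cons_val_one] at h2
        rwa [show y 0 + (n : ZMod q) * ((a j₁ : ZMod q) - a j₂) * y 1 + ((a j₁ : ZMod q) - a j₂) * y 1 =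
          y 0 + ((n + 1 : ℕ) : ZMod q) * ((a j₁ : ZMod q) - a j₂) * y 1 by push_cast; ring] at h2
    have h3 := h1 (c * b).val
    rwa [ZMod.natCast_zmod_val, mul_assoc c, hb, mul_one] at h3
  have t1 : ∀ c : ZMod q, ∀ y ∈ Y, ![y 0, y 1 + c * y 0] ∈ Y := by
    intro c y hy
    have h1 : ∀ n : ℕ, ![y 0, y 1 + n * ((a j₁ : ZMod q) - a j₂) * y 0] ∈ Y := by
      intro n
      induction n with
      | zero =>
        rw [Nat.cast_zero, zero_mul, zero_mul, add_zero, e]
        exact hy
      | succ n ih =>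
        have h2 := s1 _ ih
        simp only [Matrix.cons_val_zero, Matrix.cons_val_one] at h2
        rwa [show y 1 + (n : ZMod q) * ((a j₁ : ZMod q) - a j₂) * y 0 + ((a j₁ : ZMod q) - a j₂) * y 0 =
          y 1 + ((n + 1 : ℕ) : ZMod q) * ((a j₁ : ZMod q) - a j₂) * y 0 by push_cast; ring] at h2
    have h3 := h1 (c * b).val
    rwa [ZMod.natCast_zmod_val, mul_assoc c, hb, mul_one] at h3
  have h6 := Pool.Agent.N24.RW.Orb.card_um (ι := Fin 2) hq hodd (by simp)
  have h7 := Set.ncard_le_ncard (all_um hq t0 t1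
    (Pool.Agent.N24.RW.Orb.um_of_span (unimodular hc2)) hvY) (Set.toFinite Y)
  have h8 : (({u : Fin 2 → ZMod q | Pool.Agent.N24.RW.Orb.Um u}.ncard : ℕ) : ℝ) ≤ (Y.ncard : ℝ) := by
    exact_mod_cast h7
  linarith

end Pool.Agent.U125.NO
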