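import Mathlib

/-!
# Normal sequences of letters: averages of functions of blocks
-/

set_option autoImplicit false
set_option linter.unusedSectionVars false
set_option linter.unusedVariables false

namespace Pool.Agent.U125.NO

open Finset Filter Topology

variable {α : Type} [Fintype α]

/-- The sequence `w` of letters is normal for the weights `p`: every word `u` of any length `k` occurs in
`w` with the frequency `∏ p (u i)`. -/
def Normal (p : α → ℝ) (w : ℕ → α) : Prop :=
  ∀ (k : ℕ) (u : Fin k → α),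
    Tendsto (fun N : ℕ => (({n : ℕ | n < N ∧ ∀ i : Fin k, w (n + i) = u i}.ncard : ℕ) : ℝ) / (N : ℝ))
      atTop (𝓝 (∏ i, p (u i)))

/-- the block of length `k` at the place `n` -/
def blk (w : ℕ → α) (k n : ℕ) : Fin k → α := fun i => w (n + i)

/-- the expectation of a function of a random word -/
noncomputable def ex (p : α → ℝ) (k : ℕ) (f : (Fin k → α) → ℝ) : ℝ := ∑ u, (∏ i, p (u i)) * f u

theorem ncard_eq (w : ℕ → α) (k N : ℕ) (u : Fin k → α) [DecidableEq (Fin k → α)] :
    {n : ℕ | n < N ∧ ∀ i : Fin k, w (n + i) = u i}.ncard = ((range N).filter (fun n => blk w k n = u)).card := by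
  rw [← Set.ncard_coe_finset]
  congr 1
  ext n
  simp only [Set.mem_ofPred_eq, coe_filter, mem_range, blk, funext_iff]

theorem avg_tendsto {p : α → ℝ} {w : ℕ → α} (hw : Normal p w) (k : ℕ) (f : (Fin k → α) → ℝ) :
    Tendsto (fun N : ℕ => (∑ n ∈ range N, f (blk w k n)) / (N : ℝ)) atTop (𝓝 (ex p k f)) := by
  classical
  have h1 : ∀ N : ℕ, (∑ n ∈ range N, f (blk w k n)) / (N : ℝ) =
      ∑ u, ((({n : ℕ | n < N ∧ ∀ i : Fin k, w (n + i) = u i}.ncard : ℕ) : ℝ) / (N : ℝ)) * f u := by
    intro N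
    have h2 : ∑ n ∈ range N, f (blk w k n) =
        ∑ u, ∑ n ∈ (range N).filter (fun n => blk w k n = u), f (blk w k n) :=
      (sum_fiberwise (range N) (fun n => blk w k n) _).symm
    rw [h2, sum_div]
    refine sum_congr rfl fun u _ => ?_
    rw [ncard_eq]
    have h3 : ∑ n ∈ (range N).filter (fun n => blk w k n = u), f (blk w k n) =
        ∑ n ∈ (range N).filter (fun n => blk w k n = u), f u :=
      sum_congr rfl fun n hn => by rw [(mem_filter.1 hn).2]
    rw [h3, sum_const, nsmul_eq_mul]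
    ring
  simp only [h1]
  exact tendsto_finsetSum _ fun u _ => (hw k u).mul_const _

theorem ex_succ (p : α → ℝ) (k : ℕ) (f : (Fin (k + 1) → α) → ℝ) :
    ex p (k + 1) f = ∑ a, p a * ex p k (fun u => f (Fin.cons a u)) := by
  unfold ex
  rw [← (Fin.consEquiv (fun _ : Fin (k + 1) => α)).sum_comp, Fintype.sum_prod_type]
  refine sum_congr rfl fun a _ => ?_
  rw [mul_sum]
  refine sum_congr rfl fun u _ => ?_
  change (∏ i, p ((Fin.cons a u : Fin (k + 1) → α) i)) * f (Fin.cons a u) =
    p a * ((∏ i, p (u i)) * f (Fin.cons a u))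
  rw [Fin.prod_univ_succ]
  simp only [Fin.cons_zero, Fin.cons_succ]
  ring

theorem ex_add (p : α → ℝ) (k : ℕ) (f g : (Fin k → α) → ℝ) :
    ex p k (fun u => f u + g u) = ex p k f + ex p k g := by
  unfold ex
  rw [← sum_add_distrib]
  exact sum_congr rfl fun u _ => by ring

theorem ex_mul (p : α → ℝ) (k : ℕ) (c : ℝ) (f : (Fin k → α) → ℝ) :
    ex p k (fun u => c * f u) = c * ex p k f := by
  unfold ex
  rw [mul_sum]
  exact sum_congr rfl fun u _ => by ring

theorem ex_mono {p : α → ℝ} (hp : ∀ a, 0 ≤ p a) (k : ℕ) {f g : (Fin k → α) → ℝ} (h : ∀ u, f u ≤ g u) :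
    ex p k f ≤ ex p k g :=
  sum_le_sum fun u _ => mul_le_mul_of_nonneg_left (h u) (prod_nonneg fun i _ => hp _)

theorem ex_sum {ι : Type} (p : α → ℝ) (k : ℕ) (s : Finset ι) (f : ι → (Fin k → α) → ℝ) :
    ex p k (fun u => ∑ i ∈ s, f i u) = ∑ i ∈ s, ex p k (f i) := by
  unfold ex
  rw [sum_comm]
  exact sum_congr rfl fun u _ => by rw [mul_sum]

theorem ex_one {p : α → ℝ} (hp : ∑ a, p a = 1) (k : ℕ) : ex p k (fun _ => 1) = 1 := by
  induction k with
  | zero => simp [ex]
  | succ k ih =>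
    rw [ex_succ]
    simp only [ih, mul_one, hp]

theorem ex_const {p : α → ℝ} (hp : ∑ a, p a = 1) (k : ℕ) (c : ℝ) : ex p k (fun _ => c) = c := by
  have h := ex_mul p k c (fun _ => 1)
  rw [ex_one hp, mul_one] at h
  simpa using h

theorem normal_sum {p : α → ℝ} {w : ℕ → α} (hw : Normal p w) : ∑ a, p a = 1 := by
  have h := avg_tendsto hw 1 (fun _ => 1)
  have h2 : ex p 1 (fun _ => 1) = ∑ a, p a := by
    rw [ex_succ]
    refine sum_congr rfl fun a _ => ?_
    simp [ex]
  rw [h2] at h
  refine tendsto_nhds_unique h ?_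
  refine tendsto_const_nhds.congr' ?_
  filter_upwards [eventually_ge_atTop 1] with N hN
  have : (N : ℝ) ≠ 0 := by
    have : (0 : ℝ) < N := by exact_mod_cast hN
    exact this.ne'
  simp [div_self this]

end Pool.Agent.U125.NO
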