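import Pool.Agent.U125.NO.Walk
import Pool.Agent.N24.RW.All

/-!
# Orbits of integral vectors under normal sequences of affine maps rarely visit pronull sets
-/

set_option autoImplicit false
set_option linter.unusedSectionVars false
set_option linter.unusedVariables false

namespace Pool.Agent.U125.NO

open Finset Filter Topology
open Pool.Agent.N24.RW (ProNull)

/-- A family of affine maps `T_j : x ↦ A j x + b j` with integral coefficients, `j ∈ α`. -/
structure Maps (ι α : Type) where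
  A : α → Matrix ι ι ℤ
  b : α → ι → ℤ

variable {ι α : Type} [Fintype ι] [DecidableEq ι] [Fintype α]

/-- The orbit `v, T_(w 0) v, T_(w 1) T_(w 0) v, …` of the vector `v` along the sequence `w`, where
`T_j x = A j x + b j`. -/
def path (S : Maps ι α) (v : ι → ℤ) (w : ℕ → α) : ℕ → ι → ℤ
  | 0 => v
  | n + 1 => (S.A (w n)).mulVec (path S v w n) + S.b (w n)

/-- the map `T_j` modulo `q` -/
def stp (S : Maps ι α) (q : ℕ) (j : α) (x : ι → ZMod q) : ι → ZMod q :=
  ((S.A j).map (Int.castRingHom (ZMod q))).mulVec x + fun i => ((S.b j i : ℤ) : ZMod q)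

/-- The family is wide at `v`: for all `q` prime to some `q₀` the maps are injective modulo `q`, and every
set of vectors modulo `q` which contains `v` and is mapped into itself by all the maps contains at least the
proportion `c > 0` (independent of `q`) of all vectors modulo `q`. -/
def Wide (S : Maps ι α) (v : ι → ℤ) : Prop :=
  ∃ q₀ : ℕ, 0 < q₀ ∧ ∃ c : ℝ, 0 < c ∧ ∀ q : ℕ, 0 < q → q.Coprime q₀ →
    (∀ j, Function.Injective (stp S q j)) ∧
    ∀ Y : Set (ι → ZMod q), (fun i => ((v i : ℤ) : ZMod q)) ∈ Y → (∀ j, ∀ y ∈ Y, stp S q j y ∈ Y) →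
      c * (q : ℝ) ^ Fintype.card ι ≤ (Y.ncard : ℝ)

/-- the vector modulo `q` -/
def rd (q : ℕ) (c : ι → ℤ) (i : ι) : ZMod q := (c i : ZMod q)

theorem rd_path (S : Maps ι α) (v : ι → ℤ) (w : ℕ → α) (q n : ℕ) :
    rd q (path S v w (n + 1)) = stp S q (w n) (rd q (path S v w n)) := by
  funext i
  have h1 := RingHom.map_mulVec (Int.castRingHom (ZMod q)) (S.A (w n)) (path S v w n) i
  simp only [rd, path, stp, Pi.add_apply, Int.cast_add]
  congr 1

/-- the vectors modulo `q` which can be reached -/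
inductive Rch (S : Maps ι α) (q : ℕ) (v : ι → ZMod q) : (ι → ZMod q) → Prop
  | base : Rch S q v v
  | step (j : α) (x : ι → ZMod q) : Rch S q v x → Rch S q v (stp S q j x)

theorem rch_path (S : Maps ι α) (v : ι → ℤ) (w : ℕ → α) (q n : ℕ) :
    Rch S q (rd q v) (rd q (path S v w n)) := by
  induction n with
  | zero => exact Rch.base
  | succ n ih => rw [rd_path]; exact Rch.step _ _ ih

/-- the restriction to the reachable vectors -/
def st' (S : Maps ι α) (q : ℕ) (v : ι → ZMod q) (j : α) (x : {x // Rch S q v x}) :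
    {x // Rch S q v x} := ⟨stp S q j x.1, Rch.step j x.1 x.2⟩

theorem trans_st' {S : Maps ι α} {q : ℕ} (hq : 0 < q) (hi : ∀ j, Function.Injective (stp S q j))
    (v : ι → ZMod q) : Trans (st' S q v) := by
  classical
  have : NeZero q := ⟨hq.ne'⟩
  intro Y hne hY
  by_contra hu
  -- the complement is invariant
  have hinj : ∀ j, Function.Injective (st' S q v j) := by
    intro j x y h
    have h2 := congrArg Subtype.val h
    exact Subtype.ext (hi j h2)
  have himg : ∀ j, st' S q v j '' Y = Y := by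
    intro j
    refine Set.eq_of_subset_of_ncard_le ?_ ?_ (Set.toFinite _)
    · rintro _ ⟨y, hy, rfl⟩
      exact hY j y hy
    · rw [Set.ncard_image_of_injective _ (hinj j)]
  have hcompl : ∀ j, ∀ y ∉ Y, st' S q v j y ∉ Y := by
    intro j y hy hmem
    rw [← himg j] at hmem
    obtain ⟨z, hz, hzy⟩ := hmem
    exact hy (hinj j hzy ▸ hz)
  by_cases hv : (⟨v, Rch.base⟩ : {x // Rch S q v x}) ∈ Y
  · apply hu
    ext ⟨x, hx⟩
    refine ⟨fun _ => trivial, fun _ => ?_⟩
    induction hx with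
    | base => exact hv
    | step j x hx ih => exact hY j _ (ih trivial)
  · obtain ⟨⟨x, hx⟩, hxY⟩ := hne
    have h3 : ∀ x (hx : Rch S q v x), (⟨x, hx⟩ : {x // Rch S q v x}) ∉ Y := by
      intro x hx
      induction hx with
      | base => exact hv
      | step j x hx ih => exact hcompl j _ ih
    exact h3 x hx hxY

/-- the frequency of a set modulo `q` -/
theorem one_modulus {S : Maps ι α} {v : ι → ℤ} {q : ℕ} (hq : 0 < q) {c : ℝ} (hc : 0 < c)
    (hi : ∀ j, Function.Injective (stp S q j))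
    (hY : ∀ Y : Set (ι → ZMod q), rd q v ∈ Y → (∀ j, ∀ y ∈ Y, stp S q j y ∈ Y) →
      c * (q : ℝ) ^ Fintype.card ι ≤ (Y.ncard : ℝ))
    {p : α → ℝ} (hp : ∀ j, 0 < p j) {w : ℕ → α} (hw : Normal p w)
    (B : Set (ι → ℤ)) {ε : ℝ} (hε : 0 ≤ ε)
    (hB : ((((fun (c : ι → ℤ) (i : ι) => (c i : ZMod q)) '' B).ncard : ℕ) : ℝ) ≤
      ε * (q : ℝ) ^ Fintype.card ι) {δ : ℝ} (hδ : 0 < δ) :
    ∀ᶠ N : ℕ in atTop, (({n : ℕ | n < N ∧ path S v w n ∈ B}.ncard : ℕ) : ℝ) / (N : ℝ) ≤ ε / c + δ := by
  classical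
  have : NeZero q := ⟨hq.ne'⟩
  have hqp : (0 : ℝ) < (q : ℝ) ^ Fintype.card ι := by
    have : (0 : ℝ) < q := by exact_mod_cast hq
    positivity
  have hfin : Fintype {x // Rch S q (rd q v) x} := Fintype.ofFinite _
  obtain ⟨x, hxd⟩ : ∃ x : ℕ → {x // Rch S q (rd q v) x}, ∀ n, (x n).1 = rd q (path S v w n) :=
    ⟨fun n => ⟨rd q (path S v w n), rch_path S v w q n⟩, fun n => rfl⟩
  have hx : ∀ n, x (n + 1) = st' S q (rd q v) (w n) (x n) := by
    intro n
    apply Subtype.ext
    rw [hxd]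
    change _ = stp S q (w n) (x n).1
    rw [hxd, rd_path]
  obtain ⟨R, hR⟩ : ∃ R : Set {x // Rch S q (rd q v) x}, R = {x | x.1 ∈
    (fun (c : ι → ℤ) (i : ι) => (c i : ZMod q)) '' B} := ⟨_, rfl⟩
  have h1 := freq_tendsto hp hw (fun j => (fun x y h => Subtype.ext (hi j (congrArg Subtype.val h)) :
    Function.Injective (st' S q (rd q v) j))) (trans_st' hq hi (rd q v)) hx R
  have hRc : (R.ncard : ℝ) ≤ ε * (q : ℝ) ^ Fintype.card ι := by
    refine le_trans ?_ hB
    have h2 : R.ncard ≤ ((fun (c : ι → ℤ) (i : ι) => (c i : ZMod q)) '' B).ncard := by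
      refine Set.ncard_le_ncard_of_injOn (fun x => x.1) ?_ ?_ (Set.toFinite _)
      · intro x hx
        rw [hR] at hx
        exact hx
      · intro x _ y _ hxy
        exact Subtype.ext hxy
    exact_mod_cast h2
  have hX : c * (q : ℝ) ^ Fintype.card ι ≤ (Nat.card {x // Rch S q (rd q v) x} : ℝ) := by
    have h3 := hY {x | Rch S q (rd q v) x} Rch.base (fun j y hy => Rch.step j y hy)
    exact h3
  have hlim : (R.ncard : ℝ) / (Nat.card {x // Rch S q (rd q v) x} : ℝ) ≤ ε / c := by
    rw [div_le_div_iff₀ (lt_of_lt_of_le (by positivity) hX) hc]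
    calc (R.ncard : ℝ) * c ≤ (ε * (q : ℝ) ^ Fintype.card ι) * c :=
          mul_le_mul_of_nonneg_right hRc hc.le
      _ = ε * (c * (q : ℝ) ^ Fintype.card ι) := by ring
      _ ≤ _ := mul_le_mul_of_nonneg_left hX hε
  have h3 := (tendsto_order.1 h1).2 (ε / c + δ) (by linarith)
  filter_upwards [h3] with N hN
  refine le_trans ?_ hN.le
  refine div_le_div_of_nonneg_right ?_ (Nat.cast_nonneg N)
  have h4 : {n : ℕ | n < N ∧ path S v w n ∈ B}.ncard ≤ {n : ℕ | n < N ∧ x n ∈ R}.ncard := by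
    refine Set.ncard_le_ncard ?_ ((Set.finite_Iio N).subset fun n hn => hn.1)
    intro n hn
    refine ⟨hn.1, ?_⟩
    rw [hR]
    change (x n).1 ∈ (fun (c : ι → ℤ) (i : ι) => (c i : ZMod q)) '' B
    rw [hxd]
    exact ⟨_, hn.2, rfl⟩
  exact_mod_cast h4

/-- **Main theorem.** The orbit of `v` along every normal sequence visits a given pronull set only at times
of density zero, if the family of maps is wide at `v`. -/
theorem rare {S : Maps ι α} {v : ι → ℤ} (hS : Wide S v) {p : α → ℝ} (hp : ∀ j, 0 < p j)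
    {w : ℕ → α} (hw : Normal p w) {B : Set (ι → ℤ)} (hB : ProNull B) :
    Tendsto (fun N : ℕ => (({n : ℕ | n < N ∧ path S v w n ∈ B}.ncard : ℕ) : ℝ) / (N : ℝ)) atTop (𝓝 0) := by
  obtain ⟨q₀, hq₀, c, hc, h⟩ := hS
  rw [tendsto_order]
  constructor
  · intro a ha
    exact Eventually.of_forall fun N => lt_of_lt_of_le ha (by positivity)
  · intro a ha
    obtain ⟨q, hq, hqc, hqB⟩ := hB q₀ hq₀ (c * (a / 3)) (by positivity)
    obtain ⟨hi, hY⟩ := h q hq hqc
    have h1 := one_modulus hq hc hi hY hp hw B (ε := c * (a / 3)) (by positivity) hqB (δ := a / 3)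
      (by positivity)
    filter_upwards [h1] with N hN
    have h2 : c * (a / 3) / c = a / 3 := by field_simp
    rw [h2] at hN
    linarith

end Pool.Agent.U125.NO
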