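import Pool.Agent.U125.NO.Freq

/-!
# Normal sequences of permutations of a finite set: equidistribution of every orbit
-/

set_option autoImplicit false
set_option linter.unusedSectionVars false
set_option linter.unusedVariables false

namespace Pool.Agent.U125.NO

open Finset Filter Topology

variable {α X : Type} [Fintype α] [Fintype X]

/-- the averaging operator -/
def av (p : α → ℝ) (σ : α → X → X) (g : X → ℝ) (y : X) : ℝ := ∑ a, p a * g (σ a y)

/-- every nonempty set which is mapped into itself is everything -/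
def Trans (σ : α → X → X) : Prop := ∀ Y : Set X, Y.Nonempty → (∀ a, ∀ y ∈ Y, σ a y ∈ Y) → Y = Set.univ

theorem const_of_av {p : α → ℝ} (hp : ∀ a, 0 < p a) (h1 : ∑ a, p a = 1) {σ : α → X → X} (ht : Trans σ)
    {g : X → ℝ} (hg : ∀ y, av p σ g y = g y) (x y : X) : g x = g y := by
  classical
  have hne : Nonempty X := ⟨x⟩
  obtain ⟨z, hz⟩ := Finite.exists_max g
  have hY : {y | g y = g z} = Set.univ := by
    refine ht _ ⟨z, rfl⟩ fun a y hy => ?_
    by_contra hne'
    have hlt : g (σ a y) < g z := lt_of_le_of_ne (hz _) hne'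
    have h2 : ∑ b, p b * g (σ b y) < ∑ b, p b * g z :=
      sum_lt_sum (fun b _ => mul_le_mul_of_nonneg_left (hz _) (hp b).le)
        ⟨a, mem_univ a, mul_lt_mul_of_pos_left hlt (hp a)⟩
    rw [← sum_mul, h1, one_mul] at h2
    have h3 := hg y
    unfold av at h3
    rw [h3, hy] at h2
    exact lt_irrefl _ h2
  have hx : x ∈ {y | g y = g z} := by rw [hY]; trivial
  have hy : y ∈ {y | g y = g z} := by rw [hY]; trivial
  exact (hx : g x = g z).trans (hy : g y = g z).symm

theorem sum_av {p : α → ℝ} (h1 : ∑ a, p a = 1) {σ : α → X → X} (hi : ∀ a, Function.Injective (σ a))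
    (g : X → ℝ) : ∑ y, av p σ g y = ∑ y, g y := by
  unfold av
  rw [sum_comm]
  have h2 : ∀ a, ∑ y, p a * g (σ a y) = p a * ∑ y, g y := by
    intro a
    rw [← mul_sum]
    congr 1
    exact (Equiv.ofBijective (σ a) (Finite.injective_iff_bijective.1 (hi a))).sum_comp g
  rw [sum_congr rfl fun a _ => h2 a, ← sum_mul, h1, one_mul]

theorem poisson {p : α → ℝ} (hp : ∀ a, 0 < p a) (h1 : ∑ a, p a = 1) {σ : α → X → X}
    (hi : ∀ a, Function.Injective (σ a)) (ht : Trans σ) [Nonempty X] {f : X → ℝ} (hf : ∑ y, f y = 0) :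
    ∃ g : X → ℝ, ∀ y, g y - av p σ g y = f y := by
  classical
  let L : (X → ℝ) →ₗ[ℝ] (X → ℝ) :=
    { toFun := fun u x => u x - av p σ u x
      map_add' := by
        intro u v
        funext x
        simp only [av, Pi.add_apply, mul_add, sum_add_distrib]
        ring
      map_smul' := by
        intro c u
        funext x
        simp only [av, Pi.smul_apply, smul_eq_mul, RingHom.id_apply]
        rw [mul_sub, mul_sum]
        congr 1
        exact sum_congr rfl fun a _ => by ring }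
  let Z : (X → ℝ) →ₗ[ℝ] ℝ :=
    { toFun := fun u => ∑ x, u x
      map_add' := by
        intro u v
        simp only [Pi.add_apply, sum_add_distrib]
      map_smul' := by
        intro c u
        simp only [Pi.smul_apply, smul_eq_mul, RingHom.id_apply, mul_sum] }
  obtain ⟨x₀⟩ := ‹Nonempty X›
  have hker : Module.finrank ℝ (LinearMap.ker L) ≤ 1 := by
    have hle : LinearMap.ker L ≤ Submodule.span ℝ {fun _ : X => (1 : ℝ)} := by
      intro u hu
      rw [LinearMap.mem_ker] at hu
      have hu' : ∀ y, av p σ u y = u y := by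
        intro y
        have h3 := congrFun hu y
        change u y - av p σ u y = 0 at h3
        linarith
      rw [Submodule.mem_span_singleton]
      refine ⟨u x₀, ?_⟩
      funext y
      simp only [Pi.smul_apply, smul_eq_mul, mul_one]
      exact const_of_av hp h1 ht hu' x₀ y
    exact (Submodule.finrank_mono hle).trans (finrank_span_le_card _ |>.trans (by simp))
  have hZ : LinearMap.range L ≤ LinearMap.ker Z := by
    rintro _ ⟨u, rfl⟩
    rw [LinearMap.mem_ker]
    change ∑ x, (u x - av p σ u x) = 0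
    rw [sum_sub_distrib, sum_av h1 hi, sub_self]
  have hZr : Module.finrank ℝ (LinearMap.ker Z) + 1 = Fintype.card X := by
    have h3 := LinearMap.finrank_range_add_finrank_ker Z
    have h4 : LinearMap.range Z = ⊤ := by
      rw [LinearMap.range_eq_top]
      intro t
      refine ⟨fun y => if y = x₀ then t else 0, ?_⟩
      change ∑ y, (if y = x₀ then t else 0) = t
      simp
    rw [h4, finrank_top, Module.finrank_self, Module.finrank_fintype_fun_eq_card] at h3
    omega
  have hLr := LinearMap.finrank_range_add_finrank_ker L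
  rw [Module.finrank_fintype_fun_eq_card] at hLr
  have heq : LinearMap.range L = LinearMap.ker Z :=
    Submodule.eq_of_le_of_finrank_le hZ (by omega)
  have hmem : f ∈ LinearMap.range L := by
    rw [heq, LinearMap.mem_ker]
    exact hf
  obtain ⟨g, hg⟩ := hmem
  exact ⟨g, fun y => congrFun hg y⟩

/-- the sum of `f` along the path from `y` given by the word `u` -/
def sf (σ : α → X → X) (f : X → ℝ) : (k : ℕ) → (Fin k → α) → X → ℝ
  | 0, _, _ => 0
  | k + 1, u, y => f y + sf σ f k (Fin.tail u) (σ (u 0) y)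

/-- the martingale -/
def mf (p : α → ℝ) (σ : α → X → X) (g : X → ℝ) : (k : ℕ) → (Fin k → α) → X → ℝ
  | 0, _, _ => 0
  | k + 1, u, y => (g (σ (u 0) y) - av p σ g y) + mf p σ g k (Fin.tail u) (σ (u 0) y)

/-- the end of the path -/
def ed (σ : α → X → X) : (k : ℕ) → (Fin k → α) → X → X
  | 0, _, y => y
  | k + 1, u, y => ed σ k (Fin.tail u) (σ (u 0) y)

theorem sf_eq (p : α → ℝ) (σ : α → X → X) (f g : X → ℝ) (hg : ∀ y, g y - av p σ g y = f y) (k : ℕ) :
    ∀ (u : Fin k → α) (y : X), sf σ f k u y = g y - g (ed σ k u y) + mf p σ g k u y := by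
  induction k with
  | zero => intro u y; simp [sf, ed, mf]
  | succ k ih =>
    intro u y
    simp only [sf, ed, mf]
    rw [ih, ← hg]
    ring

theorem ex_mf {p : α → ℝ} (h1 : ∑ a, p a = 1) (σ : α → X → X) (g : X → ℝ) (k : ℕ) :
    ∀ y : X, ex p k (fun u => mf p σ g k u y) = 0 := by
  induction k with
  | zero => intro y; simp [ex, mf]
  | succ k ih =>
    intro y
    rw [ex_succ]
    have h2 : ∀ a, ex p k (fun u => mf p σ g (k + 1) (Fin.cons a u) y) = g (σ a y) - av p σ g y := by
      intro a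
      have h3 : (fun u : Fin k → α => mf p σ g (k + 1) (Fin.cons a u) y) =
          fun u => (g (σ a y) - av p σ g y) + mf p σ g k u (σ a y) := by
        funext u
        simp only [mf, Fin.cons_zero, Fin.tail_cons]
      rw [h3, ex_add, ex_const h1, ih, add_zero]
    simp only [h2, mul_sub, sum_sub_distrib, ← sum_mul, h1, one_mul]
    exact sub_self _

theorem ex_mf_sq {p : α → ℝ} (hp : ∀ a, 0 ≤ p a) (h1 : ∑ a, p a = 1) (σ : α → X → X) {g : X → ℝ} {G : ℝ}
    (hG : ∀ y, |g y| ≤ G) (k : ℕ) :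
    ∀ y : X, ex p k (fun u => mf p σ g k u y ^ 2) ≤ 4 * G ^ 2 * k := by
  have hav : ∀ y, |av p σ g y| ≤ G := by
    intro y
    unfold av
    refine (abs_sum_le_sum_abs _ _).trans ?_
    calc ∑ a, |p a * g (σ a y)| ≤ ∑ a, p a * G := by
          refine sum_le_sum fun a _ => ?_
          rw [abs_mul, abs_of_nonneg (hp a)]
          exact mul_le_mul_of_nonneg_left (hG _) (hp a)
      _ = G := by rw [← sum_mul, h1, one_mul]
  induction k with
  | zero => intro y; simp [ex, mf]
  | succ k ih =>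
    intro y
    rw [ex_succ]
    have h2 : ∀ a, ex p k (fun u => mf p σ g (k + 1) (Fin.cons a u) y ^ 2) ≤
        4 * G ^ 2 + 4 * G ^ 2 * k := by
      intro a
      have h3 : (fun u : Fin k → α => mf p σ g (k + 1) (Fin.cons a u) y ^ 2) =
          fun u => ((g (σ a y) - av p σ g y) ^ 2 + (2 * (g (σ a y) - av p σ g y)) * mf p σ g k u (σ a y)) +
            mf p σ g k u (σ a y) ^ 2 := by
        funext u
        simp only [mf, Fin.cons_zero, Fin.tail_cons]
        ring
      rw [h3, ex_add p k (fun u => (g (σ a y) - av p σ g y) ^ 2 +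
        (2 * (g (σ a y) - av p σ g y)) * mf p σ g k u (σ a y)),
        ex_add p k (fun _ => (g (σ a y) - av p σ g y) ^ 2), ex_const h1, ex_mul, ex_mf h1, mul_zero, add_zero]
      have h4 : (g (σ a y) - av p σ g y) ^ 2 ≤ 4 * G ^ 2 := by
        have h5 := abs_le.1 (hG (σ a y))
        have h6 := abs_le.1 (hav y)
        nlinarith
      exact add_le_add h4 (ih _)
    calc ∑ a, p a * ex p k (fun u => mf p σ g (k + 1) (Fin.cons a u) y ^ 2)
        ≤ ∑ a, p a * (4 * G ^ 2 + 4 * G ^ 2 * k) :=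
          sum_le_sum fun a _ => mul_le_mul_of_nonneg_left (h2 a) (hp a)
      _ = 4 * G ^ 2 * ((k + 1 : ℕ) : ℝ) := by
          rw [← sum_mul, h1, one_mul]
          push_cast
          ring

theorem ex_sf_sq {p : α → ℝ} (hp : ∀ a, 0 ≤ p a) (h1 : ∑ a, p a = 1) (σ : α → X → X) {f g : X → ℝ} {G : ℝ}
    (hG : ∀ y, |g y| ≤ G) (hg : ∀ y, g y - av p σ g y = f y) (k : ℕ) (y : X) :
    ex p k (fun u => sf σ f k u y ^ 2) ≤ 8 * G ^ 2 * (k + 1) := by
  have h2 : ∀ u : Fin k → α, sf σ f k u y ^ 2 ≤ 8 * G ^ 2 + 2 * mf p σ g k u y ^ 2 := by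
    intro u
    rw [sf_eq p σ f g hg]
    have h5 := abs_le.1 (hG y)
    have h6 := abs_le.1 (hG (ed σ k u y))
    nlinarith [sq_nonneg (g y - g (ed σ k u y) - mf p σ g k u y)]
  refine (ex_mono hp k h2).trans ?_
  rw [ex_add p k (fun _ => 8 * G ^ 2), ex_const h1, ex_mul]
  have h3 := ex_mf_sq hp h1 σ hG k y
  linarith

/-- a path is a sequence which follows the letters -/
theorem sum_path {w : ℕ → α} {σ : α → X → X} {x : ℕ → X} (hx : ∀ n, x (n + 1) = σ (w n) (x n)) (f : X → ℝ)
    (k : ℕ) : ∀ n : ℕ, ∑ j ∈ range k, f (x (n + j)) = sf σ f k (blk w k n) (x n) := by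
  induction k with
  | zero => intro n; simp [sf]
  | succ k ih =>
    intro n
    rw [sum_range_succ']
    have h2 : ∑ j ∈ range k, f (x (n + (j + 1))) = ∑ j ∈ range k, f (x (n + 1 + j)) :=
      sum_congr rfl fun j _ => by rw [show n + (j + 1) = n + 1 + j by ring]
    rw [h2, ih (n + 1), add_zero, add_comm]
    simp only [sf]
    congr 1
    have h3 : Fin.tail (blk w (k + 1) n) = blk w k (n + 1) := by
      funext i
      simp only [Fin.tail, blk, Fin.val_succ]
      congr 1
      ring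
    have h4 : blk w (k + 1) n 0 = w n := by simp [blk]
    rw [h3, h4, ← hx]

theorem shift_bound {f : ℕ → ℝ} {M : ℝ} (hM : ∀ n, |f n| ≤ M) (N j : ℕ) :
    |∑ n ∈ range N, f (n + j) - ∑ n ∈ range N, f n| ≤ 2 * M * j := by
  induction j with
  | zero => simp
  | succ j ih =>
    have h2 : ∑ n ∈ range N, f (n + (j + 1)) - ∑ n ∈ range N, f (n + j) = f (N + j) - f (0 + j) := by
      rw [← sum_sub_distrib]
      have h3 := sum_range_sub (fun n => f (n + j)) N
      rw [← h3]
      refine sum_congr rfl fun n _ => ?_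
      rw [show n + (j + 1) = n + 1 + j by ring]
    have h4 : |f (N + j) - f (0 + j)| ≤ 2 * M := by
      have := hM (N + j)
      have := hM (0 + j)
      have := abs_sub (f (N + j)) (f (0 + j))
      linarith
    have h5 : ∑ n ∈ range N, f (n + (j + 1)) - ∑ n ∈ range N, f n =
        (∑ n ∈ range N, f (n + (j + 1)) - ∑ n ∈ range N, f (n + j)) +
          (∑ n ∈ range N, f (n + j) - ∑ n ∈ range N, f n) := by ring
    rw [h5, h2]
    refine (abs_add_le _ _).trans ?_
    push_cast
    linarith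

/-- **every orbit along a normal sequence of permutations is equidistributed** -/
theorem mean_zero {p : α → ℝ} (hp : ∀ a, 0 < p a) {w : ℕ → α} (hw : Normal p w) {σ : α → X → X}
    (hi : ∀ a, Function.Injective (σ a)) (ht : Trans σ) {x : ℕ → X} (hx : ∀ n, x (n + 1) = σ (w n) (x n))
    {f : X → ℝ} (hf : ∑ y, f y = 0) :
    Tendsto (fun N : ℕ => (∑ n ∈ range N, f (x n)) / (N : ℝ)) atTop (𝓝 0) := by
  classical
  have h1 := normal_sum hw
  have : Nonempty X := ⟨x 0⟩
  obtain ⟨g, hg⟩ := poisson hp h1 hi ht hf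
  obtain ⟨G, hG⟩ : ∃ G : ℝ, ∀ y, |g y| ≤ G := by
    obtain ⟨z, hz⟩ := Finite.exists_max fun y => |g y|
    exact ⟨_, hz⟩
  obtain ⟨M, hM⟩ : ∃ M : ℝ, ∀ y, |f y| ≤ M := by
    obtain ⟨z, hz⟩ := Finite.exists_max fun y => |f y|
    exact ⟨_, hz⟩
  have hM0 : 0 ≤ M := (abs_nonneg _).trans (hM (x 0))
  set C : ℝ := Fintype.card X * (8 * G ^ 2) with hC
  have hC0 : 0 ≤ C := by positivity
  -- the bound for every `k` and `N`
  have key : ∀ k : ℕ, 1 ≤ k → ∀ t : ℝ, 0 < t → ∀ N : ℕ, 1 ≤ N →
      |(∑ n ∈ range N, f (x n)) / (N : ℝ)| ≤ 2 * M * k / N + t / (2 * k) +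
        1 / (2 * t * k) * ((∑ n ∈ range N, (fun u => ∑ y, sf σ f k u y ^ 2) (blk w k n)) / (N : ℝ)) := by
    intro k hk t ht0 N hN
    have hk0 : (0 : ℝ) < k := by exact_mod_cast hk
    have hN0 : (0 : ℝ) < N := by exact_mod_cast hN
    have h2 : |∑ n ∈ range N, ∑ j ∈ range k, f (x (n + j)) - k * ∑ n ∈ range N, f (x n)| ≤
        2 * M * k * k := by
      have h3 : ∑ n ∈ range N, ∑ j ∈ range k, f (x (n + j)) - k * ∑ n ∈ range N, f (x n) =
          ∑ j ∈ range k, (∑ n ∈ range N, f (x (n + j)) - ∑ n ∈ range N, f (x n)) := by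
        rw [sum_comm, sum_sub_distrib]
        simp
      rw [h3]
      refine (abs_sum_le_sum_abs _ _).trans ?_
      calc ∑ j ∈ range k, |∑ n ∈ range N, f (x (n + j)) - ∑ n ∈ range N, f (x n)|
          ≤ ∑ j ∈ range k, 2 * M * k := by
            refine sum_le_sum fun j hj => ?_
            refine (shift_bound (f := fun n => f (x n)) (fun n => hM _) N j).trans ?_
            have : (j : ℝ) ≤ k := by exact_mod_cast (mem_range.1 hj).le
            exact mul_le_mul_of_nonneg_left this (by positivity)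
        _ = 2 * M * k * k := by
            rw [sum_const, card_range, nsmul_eq_mul]
            ring
    have h4 : |∑ n ∈ range N, ∑ j ∈ range k, f (x (n + j))| ≤
        ∑ n ∈ range N, (t / 2 + 1 / (2 * t) * ∑ y, sf σ f k (blk w k n) y ^ 2) := by
      refine (abs_sum_le_sum_abs _ _).trans (sum_le_sum fun n _ => ?_)
      rw [sum_path hx]
      have h5 : sf σ f k (blk w k n) (x n) ^ 2 ≤ ∑ y, sf σ f k (blk w k n) y ^ 2 :=
        single_le_sum (f := fun y => sf σ f k (blk w k n) y ^ 2) (fun y _ => sq_nonneg _) (mem_univ (x n))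
      have h6 : |sf σ f k (blk w k n) (x n)| ≤ t / 2 + 1 / (2 * t) * sf σ f k (blk w k n) (x n) ^ 2 := by
        set s := sf σ f k (blk w k n) (x n)
        have h7 : t / 2 + 1 / (2 * t) * s ^ 2 - |s| = (t - |s|) ^ 2 / (2 * t) := by
          rw [← sq_abs s]
          field_simp
          ring
        have h8 : 0 ≤ (t - |s|) ^ 2 / (2 * t) := by positivity
        linarith
      refine h6.trans ?_
      have : 0 ≤ 1 / (2 * t) := by positivity
      have := mul_le_mul_of_nonneg_left h5 this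
      linarith
    rw [sum_add_distrib, sum_const, card_range, nsmul_eq_mul, ← mul_sum] at h4
    have h9 : k * |∑ n ∈ range N, f (x n)| ≤ 2 * M * k * k + (N * (t / 2) +
        1 / (2 * t) * ∑ n ∈ range N, ∑ y, sf σ f k (blk w k n) y ^ 2) := by
      have h10 : k * |∑ n ∈ range N, f (x n)| = |k * ∑ n ∈ range N, f (x n)| := by
        rw [abs_mul, abs_of_pos hk0]
      rw [h10]
      have h11 : (k : ℝ) * ∑ n ∈ range N, f (x n) = ∑ n ∈ range N, ∑ j ∈ range k, f (x (n + j)) -
          (∑ n ∈ range N, ∑ j ∈ range k, f (x (n + j)) - k * ∑ n ∈ range N, f (x n)) := by ring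
      rw [h11]
      refine (abs_sub _ _).trans ?_
      linarith
    rw [abs_div, abs_of_pos hN0, div_le_iff₀ hN0]
    have h12 : |∑ n ∈ range N, f (x n)| ≤ (2 * M * k * k + (N * (t / 2) +
        1 / (2 * t) * ∑ n ∈ range N, ∑ y, sf σ f k (blk w k n) y ^ 2)) / k := by
      rw [le_div_iff₀ hk0]
      linarith
    refine h12.trans (le_of_eq ?_)
    field_simp
    ring
  rw [Metric.tendsto_atTop]
  intro ε hε
  -- choose `k`
  obtain ⟨k, hk⟩ := exists_nat_gt ((4 * (1 + 2 * C) / ε + 1) ^ 2)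
  have hq : 0 ≤ 4 * (1 + 2 * C) / ε := by positivity
  have hk1 : 1 ≤ k := by
    have h2 : (1 : ℝ) < k := by nlinarith
    exact_mod_cast h2.le
  have hk0 : (0 : ℝ) < k := by exact_mod_cast hk1
  set t : ℝ := Real.sqrt k with ht'
  have ht0 : 0 < t := Real.sqrt_pos.2 hk0
  have htt : t * t = k := Real.mul_self_sqrt hk0.le
  have htb : 4 * (1 + 2 * C) / ε + 1 < t := by
    rw [ht']
    exact Real.lt_sqrt_of_sq_lt hk
  have hlim := avg_tendsto hw k (fun u => ∑ y, sf σ f k u y ^ 2)
  have hE : ex p k (fun u => ∑ y, sf σ f k u y ^ 2) ≤ C * (k + 1) := by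
    rw [ex_sum]
    calc ∑ y, ex p k (fun u => sf σ f k u y ^ 2) ≤ ∑ y : X, 8 * G ^ 2 * (k + 1) :=
          sum_le_sum fun y _ => ex_sf_sq (fun a => (hp a).le) h1 σ hG hg k y
      _ = C * (k + 1) := by
          rw [sum_const, card_univ, nsmul_eq_mul, hC]
          ring
  have hev := (tendsto_order.1 hlim).2 (C * (k + 1) + 1) (by linarith)
  obtain ⟨N₁, hN₁⟩ := eventually_atTop.1 hev
  obtain ⟨N₂, hN₂⟩ := exists_nat_gt (2 * M * k / (ε / 4))
  refine ⟨max N₁ (N₂ + 1), fun N hN => ?_⟩
  have hNa : N₁ ≤ N := (le_max_left _ _).trans hN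
  have hNb : N₂ + 1 ≤ N := (le_max_right _ _).trans hN
  have hN1 : 1 ≤ N := by omega
  have hN0 : (0 : ℝ) < N := by exact_mod_cast hN1
  rw [Real.dist_eq, sub_zero]
  refine (key k hk1 t ht0 N hN1).trans_lt ?_
  have h3 := (hN₁ N hNa).le
  have h4 : 1 / (2 * t * k) * ((∑ n ∈ range N, (fun u => ∑ y, sf σ f k u y ^ 2) (blk w k n)) / (N : ℝ)) ≤
      1 / (2 * t * k) * (C * (k + 1) + 1) := mul_le_mul_of_nonneg_left h3 (by positivity)
  have h5 : 2 * M * k / N < ε / 4 := by
    have h6 : (N₂ : ℝ) + 1 ≤ N := by exact_mod_cast hNb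
    rw [div_lt_iff₀ (by positivity)] at hN₂
    rw [div_lt_iff₀ hN0]
    nlinarith
  have h7 : t / (2 * k) = 1 / (2 * t) := by
    rw [← htt]
    field_simp
  have h8 : 1 / (2 * t * k) * (C * (k + 1) + 1) ≤ (2 * C + 1) / (2 * t) := by
    have h9 : C * (k + 1) + 1 ≤ (2 * C + 1) * k := by
      have : (1 : ℝ) ≤ k := by exact_mod_cast hk1
      nlinarith
    calc 1 / (2 * t * k) * (C * (k + 1) + 1) ≤ 1 / (2 * t * k) * ((2 * C + 1) * k) :=
          mul_le_mul_of_nonneg_left h9 (by positivity)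
      _ = (2 * C + 1) / (2 * t) := by field_simp
  have h10 : 1 / (2 * t) + (2 * C + 1) / (2 * t) < ε / 2 := by
    rw [← add_div, div_lt_iff₀ (by positivity)]
    have h11 : 4 * (1 + 2 * C) < (t - 1) * ε := by
      rw [← div_lt_iff₀ hε]
      linarith
    nlinarith
  linarith

/-- **the frequency of a set** -/
theorem freq_tendsto {p : α → ℝ} (hp : ∀ a, 0 < p a) {w : ℕ → α} (hw : Normal p w) {σ : α → X → X}
    (hi : ∀ a, Function.Injective (σ a)) (ht : Trans σ) {x : ℕ → X} (hx : ∀ n, x (n + 1) = σ (w n) (x n))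
    (R : Set X) :
    Tendsto (fun N : ℕ => (({n : ℕ | n < N ∧ x n ∈ R}.ncard : ℕ) : ℝ) / (N : ℝ)) atTop
      (𝓝 ((R.ncard : ℝ) / (Nat.card X : ℝ))) := by
  classical
  have : Nonempty X := ⟨x 0⟩
  have hX : (0 : ℝ) < Fintype.card X := by exact_mod_cast Fintype.card_pos
  set c : ℝ := (R.ncard : ℝ) / (Nat.card X : ℝ) with hc
  have hc' : c * Fintype.card X = R.ncard := by
    rw [hc, Nat.card_eq_fintype_card, div_mul_cancel₀ _ hX.ne']
  have hsum : ∑ y : X, (if y ∈ R then (1 : ℝ) else 0) = R.ncard := by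
    rw [sum_ite, sum_const_zero, add_zero, sum_const, nsmul_eq_mul, mul_one, Set.ncard_eq_toFinset_card']
    congr 2
    ext y
    simp
  have h := mean_zero hp hw hi ht hx (f := fun y => (if y ∈ R then (1 : ℝ) else 0) - c) (by
    rw [sum_sub_distrib, hsum, sum_const, card_univ, nsmul_eq_mul]
    linarith)
  have h2 := h.add_const c
  rw [zero_add] at h2
  refine h2.congr' ?_
  filter_upwards [eventually_ge_atTop 1] with N hN
  have hN0 : (0 : ℝ) < N := by exact_mod_cast hN
  have h3 : (({n : ℕ | n < N ∧ x n ∈ R}.ncard : ℕ) : ℝ) = ∑ n ∈ range N, (if x n ∈ R then (1 : ℝ) else 0) := by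
    rw [sum_ite, sum_const_zero, add_zero, sum_const, nsmul_eq_mul, mul_one, ← Set.ncard_coe_finset]
    congr 2
    ext n
    simp
  rw [sum_sub_distrib, ← h3, sum_const, card_range, nsmul_eq_mul]
  field_simp
  ring

end Pool.Agent.U125.NO
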